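import Pool.Agent.Lib.MP_b39e30_al.Gl.Two

/-!
The case of a field of characteristic zero: the commutators with a bounded left Engel element
commute up to scalars.
-/

set_option autoImplicit false

namespace Pool.Agent.Lib.MP_b39e30_al.Gl

open Matrix
open scoped commutatorElement

section Ring

variable {R : Type} [CommRing R] {G : Type} [Group G]

theorem anti (a b : M2 R) (ha : trace a = 0) (hb : trace b = 0) :
    b * a = trace (a * b) • 1 - a * b := by
  have h := ch a b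
  rw [ha, hb, zero_smul, zero_smul, zero_add, zero_add, zero_mul, sub_zero] at h
  rw [← h, add_sub_cancel_left]

theorem sq_mul {a b : M2 R} {α β : R} (ha : trace a = 0) (hb : trace b = 0) (a2 : a * a = α • 1)
    (b2 : b * b = β • 1) : a * b * (a * b) = trace (a * b) • (a * b) - (α * β) • 1 := by
  rw [mul_assoc, ← mul_assoc b, anti a b ha hb, sub_mul, mul_sub, mul_assoc a b b, b2]
  simp only [smul_mul_assoc, mul_smul_comm, one_mul, mul_one, a2, smul_smul, mul_comm β α]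

theorem tr_one : trace (1 : M2 R) = 2 := by simp

variable {ρ : G →* M2 R} {g : G} {c e δ : R} {N : M2 R}

theorem Dat.phi (D : Dat ρ g c e δ N) (y : G) :
    ρ (y⁻¹ * g⁻¹ * y * g) = e • ((c • 1 - cj ρ N y) * (c • 1 + N)) := by
  rw [map_mul, D.conj_inv, D.hg, smul_mul_assoc]

theorem Dat.back (D : Dat ρ g c e δ N) (x : G) (ε : R)
    (h : cj ρ N (x⁻¹ * g⁻¹ * x * g) = ε • N) :
    (c • 1 + cj ρ N x) * N = ε • (N * (c • 1 + cj ρ N x)) := by
  have h1 : cj ρ N (x⁻¹ * g⁻¹ * x) = ε • N := by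
    have e1 : x⁻¹ * g⁻¹ * x = x⁻¹ * g⁻¹ * x * g * g⁻¹ := by group
    rw [e1, cj_mul, h, inv_inv, mul_smul_comm, smul_mul_assoc, D.comm, mul_assoc, rho_inv',
      mul_one]
  have e2 : (x⁻¹ * g⁻¹ * x)⁻¹ = x⁻¹ * g * x := by group
  rw [← D.conj, ← smul_mul_assoc, ← h1, cj, mul_assoc (_ * N), ← e2, rho_inv', mul_one]

end Ring

variable {K : Type} [Field K] [CharZero K] {G : Type} [Group G]

theorem comm_form {v a : M2 K} {d : K} (hv : trace v = 0) (h2 : v * v = d • 1) (hd : d ≠ 0)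
    (h : a * v = v * a) : ∃ r : K, a = (trace a / 2) • 1 + r • v := by
  refine ⟨trace (a * v) / (2 * d), ?_⟩
  have h1 := congrArg (· * v) (ch a v)
  simp only [← h, hv, add_mul, smul_mul_assoc, mul_assoc, h2, mul_smul_comm, mul_one, one_mul,
    zero_smul, add_zero, mul_zero, sub_zero, smul_smul] at h1
  have h3 : a = (2 * d)⁻¹ • (d • a + d • a) := by
    rw [← add_smul, smul_smul, ← two_mul, inv_mul_cancel₀ (by simpa using hd), one_smul]
  rw [h1, smul_add, smul_smul, smul_smul] at h3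
  refine h3.trans ?_
  congr 2 <;> field_simp

theorem comm_of_comm {v a b : M2 K} {d : K} (hv : trace v = 0) (h2 : v * v = d • 1) (hd : d ≠ 0)
    (ha : a * v = v * a) (hb : b * v = v * b) : a * b = b * a := by
  obtain ⟨r, hr⟩ := comm_form hv h2 hd hb
  rw [hr]
  simp only [mul_add, add_mul, smul_mul_assoc, mul_smul_comm, one_mul, mul_one, ha]

variable {ρ : G →* M2 K} {g : G} {c e δ : K} {N : M2 K}

theorem Dat.pm (D : Dat ρ g c e δ N) (hδ : δ ≠ 0) (x : G)
    (h : (c • 1 + cj ρ N x) * N = (1 : K) • (N * (c • 1 + cj ρ N x))) :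
    cj ρ N x = N ∨ cj ρ N x = -N := by
  have h0 : cj ρ N x * N = N * cj ρ N x := by simpa [add_mul, mul_add] using h
  obtain ⟨r, hr⟩ := comm_form D.ht D.h2 hδ h0
  rw [D.cj_tr, zero_div, zero_smul, zero_add] at hr
  have h1 := congrArg trace (D.cj_sq x)
  rw [hr, smul_mul_assoc, mul_smul_comm, D.h2] at h1
  simp only [trace_smul, tr_one, smul_eq_mul] at h1
  have h3 : (r - 1) * (r + 1) = 0 :=
    mul_left_cancel₀ (mul_ne_zero hδ two_ne_zero) (by linear_combination h1)
  rcases mul_eq_zero.1 h3 with h4 | h4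
  · left
    rw [hr, sub_eq_zero.1 h4, one_smul]
  · right
    rw [hr, eq_neg_of_add_eq_zero_left h4, neg_one_smul]

/-- The semisimple case with nonzero trace. -/
theorem Dat.case_a (D : Dat ρ g c e δ N) (hδ : δ ≠ 0) (hc : c ≠ 0) (k : ℕ)
    (hE : ∀ x : G, (fun y => y⁻¹ * g⁻¹ * y * g)^[k] x = 1) (y z : G) :
    ρ (y⁻¹ * g⁻¹ * y * g) * ρ (z⁻¹ * g⁻¹ * z * g)
      = ρ (z⁻¹ * g⁻¹ * z * g) * ρ (y⁻¹ * g⁻¹ * y * g) := by
  have key : ∀ (j : ℕ) (x : G), (fun y => y⁻¹ * g⁻¹ * y * g)^[j] x = 1 →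
      cj ρ N x = N ∨ cj ρ N x = -N := by
    intro j
    induction j with
    | zero => intro x hx; rw [show x = 1 from hx, cj_one]; exact Or.inl rfl
    | succ j ih =>
      intro x hx
      rcases ih _ hx with h | h
      · exact D.pm hδ x (D.back x 1 (by rw [h, one_smul]))
      · exfalso
        have h1 := D.back x (-1) (by rw [h, neg_one_smul])
        rw [add_mul, mul_add, anti _ _ (D.cj_tr x) D.ht] at h1
        have h3 : (2 * c) • N + trace (cj ρ N x * N) • (1 : M2 K) = 0 := by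
          simp only [smul_mul_assoc, mul_smul_comm, one_mul, mul_one] at h1
          linear_combination (norm := module) h1
        have h4 := congrArg trace h3
        rw [trace_add, trace_smul, trace_smul, D.ht, tr_one, trace_zero] at h4
        have h5 : trace (cj ρ N x * N) = 0 := by simpa using h4
        rw [h5, zero_smul, add_zero, smul_eq_zero] at h3
        rcases h3 with h3 | h3
        · exact mul_ne_zero two_ne_zero hc h3
        · have h6 := congrArg trace D.h2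
          rw [h3, mul_zero, trace_zero, trace_smul, tr_one] at h6
          exact mul_ne_zero hδ two_ne_zero h6.symm
  have h1 : ∀ y, ρ (y⁻¹ * g⁻¹ * y * g) * N = N * ρ (y⁻¹ * g⁻¹ * y * g) := by
    intro y
    rw [D.phi]
    rcases key k y (hE y) with h | h <;> rw [h] <;>
      simp only [smul_mul_assoc, mul_smul_comm, mul_add, add_mul, sub_mul, mul_sub, one_mul,
        mul_one, mul_assoc, neg_mul, mul_neg]
  exact comm_of_comm D.ht D.h2 hδ (h1 y) (h1 z)

omit [CharZero K] in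
/-- The unipotent case. -/
theorem Dat.case_u (D : Dat ρ g c e 0 N) (k : ℕ)
    (hE : ∀ x : G, (fun y => y⁻¹ * g⁻¹ * y * g)^[k] x = 1) (y z : G) :
    ρ (y⁻¹ * g⁻¹ * y * g) * ρ (z⁻¹ * g⁻¹ * z * g)
      = ρ (z⁻¹ * g⁻¹ * z * g) * ρ (y⁻¹ * g⁻¹ * y * g) := by
  obtain ⟨n1, n2, n3, n4, n5⟩ := D.norm
  have h1 : ∀ x, N * ρ x * N = 0 := by
    intro x
    have h2 := lam_pow ρ n1 n2 n3 n4 k x (by rw [hE, map_one, one_mul, n4])
    have h3 := pow_eq_zero_iff (by positivity) |>.1 h2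
    rw [mul_smul_comm, trace_smul, smul_eq_mul,
      mul_eq_zero_iff_left (right_ne_zero_of_mul_eq_one n5)] at h3
    rw [sandwich _ _ (by simpa using D.h2) D.ht, h3, zero_smul]
  have h2 : ∀ y z, cj ρ N y * cj ρ N z = 0 := by
    intro y z
    have e1 : cj ρ N y * cj ρ N z = ρ y⁻¹ * (N * ρ (y * z⁻¹) * N) * ρ z := by
      simp only [cj, map_mul, mul_assoc]
    rw [e1, h1, mul_zero, zero_mul]
  have h3 : ∀ y, ρ (y⁻¹ * g⁻¹ * y * g)
      = (e * c) • (c • 1 + (cj ρ N 1 - cj ρ N y)) := by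
    intro y
    rw [D.phi, ← smul_smul]
    congr 1
    have := h2 y 1
    rw [cj_one] at this ⊢
    simp only [smul_mul_assoc, mul_smul_comm, mul_add, sub_mul, one_mul, mul_one, this, smul_add,
      smul_sub]
    abel
  rw [h3, h3]
  simp only [smul_mul_assoc, mul_smul_comm, mul_add, add_mul, sub_mul, mul_sub, one_mul, mul_one,
    h2]
  module

/-- The trace zero case. -/
theorem Dat.case_b (D : Dat ρ g 0 e δ N) (k : ℕ)
    (hE : ∀ x : G, (fun y => y⁻¹ * g⁻¹ * y * g)^[k] x = 1) (y z : G) :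
    ∃ ε : K, ρ (y⁻¹ * g⁻¹ * y * g) * ρ (z⁻¹ * g⁻¹ * z * g)
      = ε • (ρ (z⁻¹ * g⁻¹ * z * g) * ρ (y⁻¹ * g⁻¹ * y * g)) := by
  have he : e * δ = -1 := by linear_combination -D.he
  have hδ : δ ≠ 0 := by
    rintro rfl
    simp at he
  have hφ : ∀ y, ρ (y⁻¹ * g⁻¹ * y * g) = (-e) • (cj ρ N y * N) := by
    intro y
    rw [D.phi]
    simp
  set τ : G → K := fun y => -e * trace (cj ρ N y * N) with hτ
  have τ1 : ∀ x, cj ρ N x = N → τ x = 2 := by
    intro x hx
    simp only [hτ, hx, D.h2, trace_smul, tr_one, smul_eq_mul]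
    linear_combination (-2) * he
  have τ2 : ∀ x, cj ρ N x = -N → τ x = -2 := by
    intro x hx
    simp only [hτ, hx, neg_mul, D.h2, trace_neg, trace_smul, tr_one, smul_eq_mul]
    linear_combination 2 * he
  have step : ∀ x, τ (x⁻¹ * g⁻¹ * x * g) = τ x ^ 2 - 2 := by
    intro x
    have e2 : (x⁻¹ * g⁻¹ * x)⁻¹ = x⁻¹ * g * x := by group
    have h1 : trace (cj ρ N (x⁻¹ * g⁻¹ * x * g) * N)
        = -e * trace (cj ρ N x * N * (cj ρ N x * N)) := by
      rw [cj_mul, mul_assoc, D.comm, ← mul_assoc, trace_mul_comm, ← mul_assoc, ← mul_assoc,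
        rho_inv', one_mul, cj, e2, D.conj, D.conj_inv]
      simp [mul_assoc]
    simp only [hτ]
    rw [h1, sq_mul (D.cj_tr x) D.ht (D.cj_sq x) D.h2, trace_sub, trace_smul, trace_smul, tr_one]
    simp only [smul_eq_mul]
    linear_combination (-2 * (e * δ - 1)) * he
  have orb : ∀ x, (fun t => t ^ 2 - 2)^[k] (τ x) = 2 := by
    intro x
    exact (Function.Semiconj.iterate_right (f := τ) (ga := fun y => y⁻¹ * g⁻¹ * y * g)
      (gb := fun t => t ^ 2 - 2) step k x).symm.trans (by rw [hE x, τ1 1 (cj_one _ _)])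
  have Q : ∀ (j : ℕ) (x : G), (fun y => y⁻¹ * g⁻¹ * y * g)^[j] x = 1 → τ x ^ 2 = 4 →
      cj ρ N x = N ∨ cj ρ N x = -N := by
    intro j
    induction j with
    | zero => intro x hx _; rw [show x = 1 from hx, cj_one]; exact Or.inl rfl
    | succ j ih =>
      intro x hx h4
      have h2 : τ (x⁻¹ * g⁻¹ * x * g) = 2 := by rw [step, h4]; norm_num
      rcases ih _ hx (by rw [h2]; norm_num) with h | h
      · exact D.pm hδ x (D.back x 1 (by rw [h, one_smul]))
      · rw [τ2 _ h] at h2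
        norm_num at h2
  have shift : ∀ y z, cj ρ N y = ρ z⁻¹ * cj ρ N (y * z⁻¹) * ρ z := by
    intro y z
    rw [← cj_mul, inv_mul_cancel_right]
  by_cases hb : ∀ y, τ y = 0 ∨ τ y ^ 2 = 4
  · have sg : ∀ y z, ∃ ε : K, ε * ε = 1 ∧ cj ρ N y * cj ρ N z = ε • (cj ρ N z * cj ρ N y) := by
      intro y z
      rcases hb (y * z⁻¹) with h | h
      · refine ⟨-1, by norm_num, ?_⟩
        have h1 : trace (cj ρ N y * cj ρ N z) = 0 := by
          rw [trace_cj_mul]
          simp only [hτ] at h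
          linear_combination δ * h + trace (cj ρ N (y * z⁻¹) * N) * he
        rw [anti _ _ (D.cj_tr y) (D.cj_tr z), h1]
        simp
      · refine ⟨1, by norm_num, ?_⟩
        rcases Q k _ (hE _) h with h1 | h1 <;> rw [shift y z, h1] <;> simp [cj]
    obtain ⟨ε1, -, h1⟩ := sg 1 z
    obtain ⟨ε2, s2, h2⟩ := sg 1 y
    obtain ⟨ε3, -, h3⟩ := sg y z
    rw [cj_one] at h1 h2
    refine ⟨ε1 * ε3 * ε2, ?_⟩
    have e1 : cj ρ N y * N * (cj ρ N z * N) = (ε1 * ε3) • (cj ρ N z * cj ρ N y * N * N) := by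
      rw [mul_assoc, ← mul_assoc N, h1]
      simp only [smul_mul_assoc, mul_smul_comm, ← mul_assoc, h3, smul_smul]
    have e2 : cj ρ N z * N * (cj ρ N y * N) = ε2 • (cj ρ N z * cj ρ N y * N * N) := by
      rw [mul_assoc, ← mul_assoc N, h2]
      simp only [smul_mul_assoc, mul_smul_comm, ← mul_assoc]
    rw [hφ, hφ]
    simp only [smul_mul_assoc, mul_smul_comm, e1, e2, smul_smul]
    congr 1
    linear_combination (-(e ^ 2 * ε1 * ε3)) * s2
  push Not at hb
  obtain ⟨y0, y1, y2⟩ := hb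
  have ex : ∀ (j : ℕ) (x : G), (fun y => y⁻¹ * g⁻¹ * y * g)^[j] x = 1 → τ x ≠ 0 → τ x ^ 2 ≠ 4 →
      ∃ x', τ x' ^ 2 = 2 := by
    intro j
    induction j with
    | zero =>
      intro x hx _ h
      rw [show x = 1 from hx, τ1 1 (cj_one _ _)] at h
      norm_num at h
    | succ j ih =>
      intro x hx h0 h4
      by_cases h2 : τ x ^ 2 = 2
      · exact ⟨x, h2⟩
      · refine ih _ hx (by rw [step]; exact sub_ne_zero.2 h2) fun h => ?_
        rw [step] at h
        exact mul_ne_zero (pow_ne_zero 2 h0) (sub_ne_zero.2 h4) (by linear_combination h)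
  obtain ⟨x, hx⟩ := ex k y0 (hE _) y1 y2
  set a := x⁻¹ * g⁻¹ * x * g with ha
  have tA : trace (ρ a) = τ x := by rw [hφ, trace_smul, smul_eq_mul]
  have A2 : ρ a * ρ a = τ x • ρ a - 1 := by
    rw [hφ, smul_mul_assoc, mul_smul_comm, sq_mul (D.cj_tr x) D.ht (D.cj_sq x) D.h2]
    simp only [smul_sub, smul_smul, hτ]
    congr 1
    · congr 1
      ring
    · rw [show -e * (-e * (δ * δ)) = 1 by linear_combination (e * δ - 1) * he, one_smul]
  obtain ⟨ι, hι⟩ : ∃ ι, ι = ρ a * ρ a := ⟨_, rfl⟩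
  have tι : trace ι = 0 := by
    rw [hι, A2, trace_sub, trace_smul, tA, tr_one, smul_eq_mul]
    linear_combination hx
  have ι2 : ι * ι = (-1 : K) • 1 := by
    rw [hι, A2]
    simp only [mul_sub, sub_mul, smul_mul_assoc, mul_smul_comm, one_mul, mul_one, A2]
    linear_combination (norm := module) hx • (τ x • ρ a - 1)
  have hA : ρ a = (τ x / 2) • (1 + ι) := by
    rw [hι, A2, add_sub_cancel, smul_smul, show τ x / 2 * τ x = 1 by
      linear_combination (1 / 2 : K) * hx, one_smul]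
  have hA' : ρ a⁻¹ = (τ x / 2) • (1 - ι) := by
    have h1 : ρ a * ((τ x / 2) • (1 - ι)) = 1 := by
      rw [hA, smul_mul_assoc, mul_smul_comm, smul_smul, add_mul, mul_sub, mul_sub, ι2]
      simp only [one_mul, mul_one, neg_one_smul]
      rw [show (1 : M2 K) - ι + (ι - -1) = (2 : K) • 1 by rw [two_smul]; abel, smul_smul,
        show τ x / 2 * (τ x / 2) * 2 = 1 by linear_combination (1 / 2 : K) * hx, one_smul]
    calc ρ a⁻¹ = ρ a⁻¹ * (ρ a * ((τ x / 2) • (1 - ι))) := by rw [h1, mul_one]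
      _ = _ := by rw [← mul_assoc, rho_inv, one_mul]
  have hι' : ρ (a * a)⁻¹ = -ι := by
    calc ρ (a * a)⁻¹ = -(ρ (a * a)⁻¹ * (ι * ι)) := by rw [ι2]; simp
      _ = -ι := by rw [← mul_assoc, hι, ← map_mul, rho_inv, one_mul]
  have dich : ∀ y, trace (ι * cj ρ N y) = 0 ∨ ∃ r : K, cj ρ N y = r • ι := by
    intro y
    have sq : trace (ι * cj ρ N y * (ι * cj ρ N y)) = trace (ι * cj ρ N y) ^ 2 + 2 * δ := by
      rw [sq_mul tι (D.cj_tr y) ι2 (D.cj_sq y), trace_sub, trace_smul, trace_smul, tr_one]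
      simp only [smul_eq_mul]
      ring
    have t2 : τ (y * a * y⁻¹) = e * trace (ι * cj ρ N y) ^ 2 / 2 := by
      simp only [hτ]
      rw [← trace_cj_mul, cj_mul, hA, hA']
      have s1 : trace (cj ρ N y * ι * cj ρ N y) = 0 := by
        rw [trace_mul_cycle, D.cj_sq, smul_mul_assoc, one_mul, trace_smul, tι, smul_zero]
      have s2 : trace (ι * cj ρ N y * cj ρ N y) = 0 := by
        rw [mul_assoc, D.cj_sq, mul_smul_comm, mul_one, trace_smul, tι, smul_zero]
      have s3 : trace (ι * cj ρ N y * ι * cj ρ N y) = trace (ι * cj ρ N y) ^ 2 + 2 * δ := by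
        rw [← sq, mul_assoc (ι * cj ρ N y)]
      simp only [smul_mul_assoc, mul_smul_comm, mul_add, add_mul, sub_mul, one_mul, mul_one,
        trace_smul, trace_add, trace_sub, s1, s2, s3, D.cj_sq, tr_one, smul_eq_mul]
      linear_combination (e * trace (ι * cj ρ N y) ^ 2 / 4) * hx
    have t1 : τ (y * (a * a) * y⁻¹) = 2 * τ (y * a * y⁻¹) - 2 := by
      rw [t2]
      simp only [hτ]
      rw [← trace_cj_mul, cj_mul, hι', map_mul, ← hι, neg_mul ι, neg_mul (ι * _),
        neg_mul (ι * _ * _), trace_neg, mul_assoc (ι * cj ρ N y), sq]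
      linear_combination 2 * he
    rcases cheb k _ (by rw [← t1]; exact orb _) (orb (y * a * y⁻¹)) with h | h
    · left
      rw [t2] at h
      refine pow_eq_zero_iff two_ne_zero |>.1 ?_
      linear_combination (-2 * δ) * h + trace (ι * cj ρ N y) ^ 2 * he
    · right
      have h1 : cj ρ N (y * a) = cj ρ N y := by
        rcases Q k _ (hE _) (by rw [h]; norm_num) with h1 | h1
        · rw [shift (y * a) y, h1, cj]
        · rw [τ2 _ h1] at h
          norm_num at h
      have h2 : cj ρ N y * ρ a = ρ a * cj ρ N y := by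
        conv_rhs => rw [← h1, cj_mul, ← mul_assoc, ← mul_assoc, rho_inv', one_mul]
      obtain ⟨r, hr⟩ := comm_form (a := cj ρ N y) tι ι2 (by norm_num)
        (by rw [hι, ← mul_assoc, h2, mul_assoc, h2, mul_assoc])
      rw [D.cj_tr, zero_div, zero_smul, zero_add] at hr
      exact ⟨r, hr⟩
  have rsq : ∀ y r, cj ρ N y = r • ι → r ^ 2 = -δ := by
    intro y r h
    have h1 := congrArg trace (D.cj_sq y)
    rw [h, smul_mul_assoc, mul_smul_comm, ι2] at h1
    simp only [trace_smul, tr_one, smul_eq_mul] at h1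
    linear_combination (-1 / 2 : K) * h1
  have perp : ∀ y, trace (ι * cj ρ N y) = 0 := by
    intro y
    rcases dich y with h | ⟨r, hr⟩
    · exact h
    exfalso
    have h1 : trace (cj ρ N (x * y) * cj ρ N y) = δ * τ x := by
      rw [trace_cj_mul, mul_inv_cancel_right]
      simp only [hτ]
      linear_combination trace (cj ρ N x * N) * he
    rw [hr, mul_smul_comm, trace_smul, trace_mul_comm, smul_eq_mul] at h1
    have h3 : (δ * τ x) ^ 2 = 2 * δ ^ 2 := by rw [mul_pow, hx, mul_comm]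
    refine pow_ne_zero 2 hδ ?_
    rcases dich (x * y) with h | ⟨s, hs⟩
    · rw [← h1, h] at h3
      linear_combination (-1 / 2 : K) * h3
    · rw [← h1, hs, mul_smul_comm, ι2] at h3
      simp only [trace_smul, tr_one, smul_eq_mul] at h3
      have h4 := rsq _ _ hr
      have h5 := rsq _ _ hs
      linear_combination (1 / 2 : K) * h3 - 2 * s ^ 2 * h4 + 2 * δ * h5
  have ac : ∀ y, cj ρ N y * ι = -(ι * cj ρ N y) := by
    intro y
    rw [anti ι _ tι (D.cj_tr y), perp, zero_smul, zero_sub]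
  have cm : ∀ y, ρ (y⁻¹ * g⁻¹ * y * g) * ι = ι * ρ (y⁻¹ * g⁻¹ * y * g) := by
    intro y
    have h1 := ac 1
    rw [cj_one] at h1
    rw [hφ, smul_mul_assoc, mul_smul_comm, mul_assoc, h1, mul_neg, ← mul_assoc, ac, neg_mul,
      neg_neg, mul_assoc]
  exact ⟨1, by rw [one_smul]; exact comm_of_comm tι ι2 (by norm_num) (cm y) (cm z)⟩

/-- Over a field the commutators with `g` commute modulo the centre. -/
theorem Dat.field (D : Dat ρ g c e δ N) (k : ℕ)
    (hE : ∀ x : G, (fun y => y⁻¹ * g⁻¹ * y * g)^[k] x = 1) (y z x : G) :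
    ρ ⁅⁅y⁻¹ * g⁻¹ * y * g, z⁻¹ * g⁻¹ * z * g⁆, x⁆ = 1 := by
  have h : ∃ ε : K, ρ (y⁻¹ * g⁻¹ * y * g) * ρ (z⁻¹ * g⁻¹ * z * g)
      = ε • (ρ (z⁻¹ * g⁻¹ * z * g) * ρ (y⁻¹ * g⁻¹ * y * g)) := by
    by_cases hδ : δ = 0
    · subst hδ
      exact ⟨1, by rw [one_smul]; exact D.case_u k hE y z⟩
    by_cases hc : c = 0
    · subst hc
      exact D.case_b k hE y z
    · exact ⟨1, by rw [one_smul]; exact D.case_a hδ hc k hE y z⟩
  obtain ⟨ε, h⟩ := h
  generalize y⁻¹ * g⁻¹ * y * g = p at h ⊢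
  generalize z⁻¹ * g⁻¹ * z * g = q at h ⊢
  have h1 : ρ ⁅p, q⁆ = ε • 1 := by
    rw [commutatorElement_def, map_mul, map_mul, map_mul, h, smul_mul_assoc, smul_mul_assoc,
      mul_assoc (ρ q), rho_inv', mul_one, rho_inv']
  generalize ⁅p, q⁆ = w at h1 ⊢
  rw [commutatorElement_def, map_mul, map_mul, map_mul, h1, smul_mul_assoc, one_mul,
    ← mul_one (ρ x), ← mul_smul_comm, ← h1, mul_assoc (ρ x), rho_inv', mul_one, rho_inv']

end Pool.Agent.Lib.MP_b39e30_al.Gl
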