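import Pool.Agent.Lib.MP_b39e30_al.Gl.Fld

/-!
The linear term of the Engel identity along the powers of a unipotent element.
-/

set_option autoImplicit false

namespace Pool.Agent.Lib.MP_b39e30_al.Gl

open Polynomial Matrix

variable {R : Type} [CommRing R] {G : Type} [Group G]

/-- Matrix valued polynomial functions of a natural number. -/
def IsPol (W : ℕ → M2 R) : Prop := ∀ i j, ∃ p : R[X], ∀ m : ℕ, W m i j = p.eval (m : R)

theorem IsPol.const (a : M2 R) : IsPol fun _ => a := fun i j => ⟨C (a i j), fun _ => by simp⟩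

theorem IsPol.add {V W : ℕ → M2 R} (hV : IsPol V) (hW : IsPol W) : IsPol fun m => V m + W m := by
  intro i j
  obtain ⟨p, hp⟩ := hV i j
  obtain ⟨q, hq⟩ := hW i j
  exact ⟨p + q, fun m => by simp only [Matrix.add_apply, hp, hq, eval_add]⟩

theorem IsPol.smul {W : ℕ → M2 R} (hW : IsPol W) (q : R[X]) :
    IsPol fun m => q.eval (m : R) • W m := by
  intro i j
  obtain ⟨p, hp⟩ := hW i j
  exact ⟨q * p, fun m => by simp only [Matrix.smul_apply, hp, eval_mul, smul_eq_mul]⟩

theorem IsPol.mul {V W : ℕ → M2 R} (hV : IsPol V) (hW : IsPol W) : IsPol fun m => V m * W m := by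
  intro i j
  choose p hp using hV
  choose q hq using hW
  exact ⟨p i 0 * q 0 j + p i 1 * q 1 j, fun m => by
    simp only [Matrix.mul_apply, Fin.sum_univ_two, hp, hq, eval_add, eval_mul]⟩

/-- `f` is a polynomial function with constant term one and linear term `l`. -/
def Pol (f : ℕ → M2 R) (l : M2 R) : Prop :=
  ∃ W, IsPol W ∧ ∀ m : ℕ, f m = 1 + (m : R) • l + (m : R) ^ 2 • W m

theorem Pol.mul {f f' : ℕ → M2 R} {l l' : M2 R} (h : Pol f l) (h' : Pol f' l') :
    Pol (fun m => f m * f' m) (l + l') := by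
  obtain ⟨W, hW, hf⟩ := h
  obtain ⟨W', hW', hf'⟩ := h'
  refine ⟨_, (((hW.add hW').add (IsPol.const (l * l'))).add
    ((((IsPol.const l).mul hW').add (hW.mul (IsPol.const l'))).smul X)).add
    ((hW.mul hW').smul (X ^ 2)), fun m => ?_⟩
  simp only [hf, hf', add_mul, mul_add, one_mul, mul_one, smul_mul_assoc, mul_smul_comm, eval_X,
    eval_pow]
  module

theorem Pol.conj {f : ℕ → M2 R} {l a b : M2 R} (h : Pol f l) (hab : a * b = 1) :
    Pol (fun m => a * f m * b) (a * l * b) := by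
  obtain ⟨W, hW, hf⟩ := h
  refine ⟨_, ((IsPol.const a).mul hW).mul (IsPol.const b), fun m => ?_⟩
  simp only [hf, add_mul, mul_add, mul_one, smul_mul_assoc, mul_smul_comm, hab]

theorem Pol.zero [Algebra ℚ R] {f : ℕ → M2 R} {l : M2 R} (h : Pol f l) (h1 : ∀ m, f m = 1) :
    l = 0 := by
  obtain ⟨W, hW, hf⟩ := h
  ext i j
  obtain ⟨p, hp⟩ := hW i j
  have hq : C (l i j) + X * p = 0 := by
    refine poly_zero _ _ 1 rfl fun m hm => ?_
    refine (unit_nat (R := R) (m := m) (by omega)).mul_right_eq_zero.1 ?_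
    have h2 := congrFun (congrFun ((h1 m).symm.trans (hf m)) i) j
    simp only [Matrix.add_apply, Matrix.smul_apply, smul_eq_mul, hp] at h2
    simp only [eval_add, eval_C, eval_mul, eval_X]
    linear_combination -h2
  simpa using congrArg (eval 0) hq

theorem choose_pol [Algebra ℚ R] (j : ℕ) : ∃ (c : R) (w : R[X]), ∀ m : ℕ,
    (m.choose (j + 1) : R) = m * c + (m : R) ^ 2 * w.eval (m : R) := by
  obtain ⟨p, hp⟩ : ∃ p : R[X], ∀ m : ℕ, (m.choose (j + 1) : R) = p.eval (m : R) := by
    obtain ⟨u, hu⟩ := (unit_nat (R := R) (Nat.factorial_ne_zero (j + 1))).exists_left_inv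
    refine ⟨C u * descPochhammer R (j + 1), fun m => ?_⟩
    rw [eval_mul, eval_C, descPochhammer_eval_eq_descFactorial,
      Nat.descFactorial_eq_factorial_mul_choose, Nat.cast_mul, ← mul_assoc, hu, one_mul]
  have h0 : p.coeff 0 = 0 := by
    have := hp 0
    rw [Nat.cast_zero, ← coeff_zero_eq_eval_zero] at this
    rw [← this]
    simp
  refine ⟨p.divX.coeff 0, p.divX.divX, fun m => ?_⟩
  have h1 := congrArg (eval (m : R)) (X_mul_divX_add p)
  have h2 := congrArg (eval (m : R)) (X_mul_divX_add p.divX)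
  simp only [eval_add, eval_mul, eval_X, eval_C, h0] at h1 h2
  rw [hp]
  linear_combination -h1 - (m : R) * h2

theorem ch_sq (a : M2 R) : a * a = trace a • a - a.det • 1 := by
  ext i j
  fin_cases i <;> fin_cases j <;>
    simp [Matrix.mul_apply, Fin.sum_univ_two, Matrix.trace_fin_two, Matrix.det_fin_two] <;> ring

/-- The powers of a matrix congruent to one modulo nilpotent elements. -/
theorem pol_pow [Algebra ℚ R] (a : M2 R) (ha : ∀ i j, a i j ∈ nilradical R) :
    ∃ p ∈ nilradical R, ∃ q : R, Pol (fun m => (1 + a) ^ m) ((1 + p) • a + q • 1) := by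
  have hτ : trace a ∈ nilradical R := by
    rw [trace_fin_two]
    exact add_mem (ha _ _) (ha _ _)
  have hd : a.det ∈ nilradical R := by
    rw [det_fin_two]
    exact sub_mem (Ideal.mul_mem_left _ _ (ha _ _)) (Ideal.mul_mem_left _ _ (ha _ _))
  have hpow : ∀ j : ℕ, ∃ p ∈ nilradical R, ∃ q ∈ nilradical R, a ^ (j + 2) = p • a + q • 1 := by
    intro j
    induction j with
    | zero =>
      exact ⟨_, hτ, _, neg_mem hd, by rw [zero_add, pow_two, ch_sq, neg_smul, sub_eq_add_neg]⟩
    | succ j ih =>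
      obtain ⟨p, hp, q, hq, h⟩ := ih
      refine ⟨p * trace a + q, add_mem (Ideal.mul_mem_right _ _ hp) hq, -(p * a.det),
        neg_mem (Ideal.mul_mem_right _ _ hp), ?_⟩
      rw [show j + 1 + 2 = j + 2 + 1 by ring, pow_succ, h, add_mul, smul_mul_assoc, ch_sq,
        smul_mul_assoc, one_mul]
      module
  obtain ⟨r, hr⟩ : IsNilpotent a := by
    refine IsNilpotent.of_pow (m := 2) ?_
    rw [pow_two, ch_sq]
    refine Commute.isNilpotent_sub ?_ ?_ ?_
    · exact ((Commute.one_right a).smul_left _).smul_right _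
    · obtain ⟨n, hn⟩ := mem_nilradical.1 hτ
      exact ⟨n, by rw [_root_.smul_pow, hn, zero_smul]⟩
    · obtain ⟨n, hn⟩ := mem_nilradical.1 hd
      exact ⟨n, by rw [_root_.smul_pow, hn, zero_smul]⟩
  have hbin : ∀ m : ℕ, (1 + a) ^ m
      = ∑ j ∈ Finset.range (r + 2), (m.choose j : R) • a ^ j := by
    intro m
    have h1 : (1 + a) ^ m = ∑ j ∈ Finset.range (m + 1), (m.choose j : R) • a ^ j := by
      rw [add_comm, (Commute.one_right a).add_pow]
      refine Finset.sum_congr rfl fun j _ => ?_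
      rw [one_pow, mul_one, Nat.cast_smul_eq_nsmul, nsmul_eq_mul']
    have h2 : ∀ n, n ≤ m + r + 2 → (∀ j, n ≤ j → (m.choose j : R) • a ^ j = 0) →
        ∑ j ∈ Finset.range n, (m.choose j : R) • a ^ j
          = ∑ j ∈ Finset.range (m + r + 2), (m.choose j : R) • a ^ j := fun n hn h =>
      Finset.sum_subset (Finset.range_mono hn) fun j _ hj => h j (by simpa using hj)
    rw [h1, h2 (m + 1) (by omega), h2 (r + 2) (by omega)]
    · intro j hj
      rw [pow_eq_zero_of_le (by omega) hr, smul_zero]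
    · intro j hj
      rw [Nat.choose_eq_zero_of_lt (by omega), Nat.cast_zero, zero_smul]
  have hsum : ∀ n : ℕ, ∃ p ∈ nilradical R, ∃ q : R, Pol
      (fun m => ∑ j ∈ Finset.range (n + 2), (m.choose j : R) • a ^ j) ((1 + p) • a + q • 1) := by
    intro n
    induction n with
    | zero =>
      exact ⟨0, zero_mem _, 0, _, IsPol.const 0, fun m => by simp [Finset.sum_range_succ]⟩
    | succ n ih =>
      obtain ⟨p, hp, q, W, hW, h⟩ := ih
      obtain ⟨p', hp', q', -, h'⟩ := hpow n
      obtain ⟨c, w, hc⟩ := choose_pol (R := R) (n + 1)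
      refine ⟨p + c * p', add_mem hp (Ideal.mul_mem_left _ _ hp'), q + c * q', _,
        hW.add ((IsPol.const (a ^ (n + 2))).smul w), fun m => ?_⟩
      have h3 := h m
      simp only at h3 ⊢
      rw [show n + 1 + 2 = n + 2 + 1 by ring, Finset.sum_range_succ, h3, hc, h']
      module
  obtain ⟨p, hp, q, h⟩ := hsum r
  exact ⟨p, hp, q, by simpa only [hbin] using h⟩

variable {ρ : G →* M2 R} {g : G} {c e δ : R} {N : M2 R}

theorem Dat.lin_aux [Algebra ℚ R] (D : Dat ρ g c e δ N) (k : ℕ) : ∀ (x : ℕ → G) (l : M2 R),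
    Pol (fun m => ρ (x m)) l → Pol (fun m => ρ (x m)⁻¹) (-l) →
    (∀ m, (fun y => y⁻¹ * g⁻¹ * y * g)^[k] (x m) = 1) → δ ^ k • (N * l - l * N) = 0 := by
  induction k with
  | zero =>
    intro x l h _ h1
    rw [h.zero fun m => by rw [show x m = 1 from h1 m, map_one]]
    simp
  | succ k ih =>
    intro x l h h' h1
    have h2 := ih (fun m => (x m)⁻¹ * g⁻¹ * x m * g) (-l + ρ g⁻¹ * l * ρ g)
      (by simpa only [map_mul, mul_assoc] using h'.mul (h.conj (rho_inv ρ g)))
      (by
        have h3 := (h'.conj (rho_inv ρ g)).mul h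
        rw [show ρ g⁻¹ * -l * ρ g + l = -(-l + ρ g⁻¹ * l * ρ g) by
          rw [mul_neg, neg_mul]; abel] at h3
        simpa only [_root_.mul_inv_rev, inv_inv, map_mul, mul_assoc] using h3) h1
    set v := N * l - l * N with hv
    have e1 : -l + ρ g⁻¹ * l * ρ g = -(ρ g⁻¹ * v) := by
      have : v = ρ g * l - l * ρ g := by
        rw [hv, D.hg]
        simp [add_mul, mul_add]
      rw [this, mul_sub, ← mul_assoc, rho_inv, one_mul, mul_assoc]
      abel
    have e2 : v * N = -(N * v) := by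
      simp only [hv, mul_sub, sub_mul, ← mul_assoc, D.h2, smul_mul_assoc, one_mul]
      rw [mul_assoc l, D.h2, mul_smul_comm, mul_one]
      abel
    have e3 : N * ρ g * (N * -(ρ g⁻¹ * v) - -(ρ g⁻¹ * v) * N) = -((2 * δ) • v) := by
      rw [mul_neg, neg_mul, mul_assoc (ρ g⁻¹), e2, ← mul_assoc N (ρ g⁻¹), ← D.comm', mul_neg,
        neg_neg, mul_assoc (ρ g⁻¹), ← neg_add', mul_neg, mul_add, mul_assoc N, ← mul_assoc (ρ g),
        rho_inv', one_mul, ← mul_assoc, D.h2, smul_mul_assoc, one_mul, two_mul, add_smul]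
    have h4 := congrArg (N * ρ g * ·) h2
    simp only [e1, mul_smul_comm, e3, mul_zero, smul_neg, neg_eq_zero, smul_smul] at h4
    obtain ⟨u, hu⟩ := (unit_nat (R := R) two_ne_zero).exists_left_inv
    rw [show δ ^ (k + 1) = u * (δ ^ k * (2 * δ)) by
      rw [Nat.cast_ofNat] at hu
      linear_combination (-δ ^ (k + 1)) * hu, mul_smul, h4, smul_zero]

/-- An element congruent to one modulo nilpotents commutes with `N` up to `δ ^ k` torsion. -/
theorem Dat.lin [Algebra ℚ R] (D : Dat ρ g c e δ N) (k : ℕ)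
    (hE : ∀ x : G, (fun y => y⁻¹ * g⁻¹ * y * g)^[k] x = 1) (u : G)
    (hu : ∀ i j, (ρ u - 1) i j ∈ nilradical R) (hu' : ∀ i j, (ρ u⁻¹ - 1) i j ∈ nilradical R) :
    δ ^ k • (ρ u * ρ g) = δ ^ k • (ρ g * ρ u) := by
  obtain ⟨p, hp, q, h⟩ := pol_pow _ hu
  obtain ⟨p', -, q', h'⟩ := pol_pow _ hu'
  rw [add_sub_cancel] at h h'
  simp only [← map_pow] at h h'
  simp only [inv_pow] at h'
  have h0 := (h.mul h').zero fun m => rho_inv' ρ _
  rw [eq_neg_of_add_eq_zero_right h0] at h'
  have h1 := D.lin_aux k (fun m => u ^ m) _ h h' fun m => hE _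
  obtain ⟨w, hw⟩ := (IsNilpotent.isUnit_one_add (mem_nilradical.1 hp)).exists_left_inv
  have h2 := congrArg (w • ·) h1
  simp only [mul_add, add_mul, mul_sub, sub_mul, mul_smul_comm, smul_mul_assoc, mul_one, one_mul,
    smul_zero] at h2
  rw [D.hg]
  simp only [mul_add, add_mul, mul_smul_comm, smul_mul_assoc, mul_one, one_mul]
  linear_combination (norm := module) -h2 + hw • (δ ^ k • (N * ρ u - ρ u * N))

end Pool.Agent.Lib.MP_b39e30_al.Gl
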