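import Pool.Agent.Lib.MP_b39e30_al.Gl.Lin

/-!
Bounded left Engel elements in groups of two by two matrices over a commutative algebra over the
rationals have a nilpotent normal closure.
-/

set_option autoImplicit false

namespace Pool.Agent.Lib.MP_b39e30_al.Gl

open Matrix
open scoped commutatorElement

variable {R : Type} [CommRing R] {G : Type} [Group G]

theorem mem_ker_mp {S : Type} [CommRing S] (π : R →+* S) (ρ : G →* M2 R) (x : G) :
    x ∈ (mp π ρ).ker ↔ ∀ i j, π ((ρ x - 1) i j) = 0 := by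
  rw [MonoidHom.mem_ker, mp_apply, ← sub_eq_zero, ← map_one π.mapMatrix, ← map_sub,
    ← Matrix.ext_iff]
  rfl

variable {ρ : G →* M2 R} {g : G} {c e δ : R} {N : M2 R}

/-- A term of the lower central series is congruent to one modulo nilpotent elements. -/
theorem Dat.red [Algebra ℚ R] (D : Dat ρ g c e δ N) (k : ℕ)
    (hE : ∀ x : G, (fun y => y⁻¹ * g⁻¹ * y * g)^[k] x = 1) :
    ∃ n, (Subgroup.normalClosure ({g} : Set G)).lowerCentralSeries n
      ≤ (mp (Ideal.Quotient.mk (nilradical R)) ρ).ker := by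
  set U := (mp (Ideal.Quotient.mk (nilradical R)) ρ).ker with hU
  have hZ : ∀ a : G, a ∈ (Subgroup.center (G ⧸ U)).comap (QuotientGroup.mk' U) ↔
      ∀ x : G, ⁅a, x⁆ ∈ U := by
    intro a
    rw [Subgroup.mem_comap, Subgroup.mem_center_iff, QuotientGroup.forall_mk]
    refine forall_congr' fun x => ?_
    rw [← QuotientGroup.eq_one_iff, ← QuotientGroup.mk'_apply U ⁅a, x⁆, map_commutatorElement,
      commutatorElement_eq_one_iff_mul_comm, eq_comm]
    rfl
  obtain ⟨n, hn⟩ := lcs_le_of_comm g k hE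
    ((Subgroup.center (G ⧸ U)).comap (QuotientGroup.mk' U)) fun y z => by
      rw [hZ]
      intro x
      rw [hU, mem_ker_mp]
      intro i j
      rw [Ideal.Quotient.eq_zero_iff_mem, mem_nilradical, nilpotent_iff_mem_prime]
      intro P hP
      have : CharZero (R ⧸ P) := algebraRat.charZero _
      have h1 := (D.map ((algebraMap (R ⧸ P) (FractionRing (R ⧸ P))).comp
        (Ideal.Quotient.mk P))).field k hE y z x
      have h2 := (mem_ker_mp _ _ _).1 (MonoidHom.mem_ker.2 h1) i j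
      rw [RingHom.comp_apply, map_eq_zero_iff _ (IsFractionRing.injective _ _)] at h2
      exact Ideal.Quotient.eq_zero_iff_mem.1 h2
  refine ⟨n + 1, ?_⟩
  rw [Subgroup.lowerCentralSeries_succ, Subgroup.commutator_le]
  exact fun a ha x _ => (hZ a).1 (hn ha) x

/-- A term of the lower central series is congruent to one modulo `δ ^ k` torsion. -/
theorem Dat.tors [Algebra ℚ R] (D : Dat ρ g c e δ N) (k : ℕ)
    (hE : ∀ x : G, (fun y => y⁻¹ * g⁻¹ * y * g)^[k] x = 1) :
    ∃ n, ∀ x ∈ (Subgroup.normalClosure ({g} : Set G)).lowerCentralSeries n,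
      δ ^ k • (ρ x - 1) = 0 := by
  obtain ⟨n, hn⟩ := D.red k hE
  set U := (mp (Ideal.Quotient.mk (nilradical R)) ρ).ker with hU
  let π := Ideal.Quotient.mk (Submodule.annihilator (Ideal.span {δ ^ k}))
  have hπ : ∀ r, π r = 0 ↔ δ ^ k * r = 0 := by
    intro r
    rw [Ideal.Quotient.eq_zero_iff_mem, Ideal.span, Submodule.mem_annihilator_span_singleton,
      smul_eq_mul, mul_comm]
  have hm : ∀ a : M2 R, π.mapMatrix a = 0 ↔ δ ^ k • a = 0 := by
    intro a
    rw [← Matrix.ext_iff, ← Matrix.ext_iff]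
    exact forall_congr' fun i => forall_congr' fun j => hπ _
  have h1 : ∀ u ∈ U, ⁅u, g⁆ ∈ (mp π ρ).ker := by
    intro u hu
    have hu' := U.inv_mem hu
    rw [hU, mem_ker_mp] at hu hu'
    have h2 := D.lin k hE u (fun i j => Ideal.Quotient.eq_zero_iff_mem.1 (hu i j))
      fun i j => Ideal.Quotient.eq_zero_iff_mem.1 (hu' i j)
    rw [← sub_eq_zero, ← smul_sub, ← hm, map_sub, sub_eq_zero, ← map_mul, ← map_mul] at h2
    have e1 : ⁅u, g⁆ = u * g * (g * u)⁻¹ := by
      rw [commutatorElement_def]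
      group
    rw [MonoidHom.mem_ker, e1, map_mul, mp_apply, h2, ← mp_apply, rho_inv']
  have h2 : ⁅U, Subgroup.normalClosure ({g} : Set G)⁆ ≤ (mp π ρ).ker := by
    set V := (mp π ρ).ker
    rw [← QuotientGroup.ker_mk' V, ← Subgroup.map_eq_bot_iff, Subgroup.map_commutator,
      Subgroup.commutator_comm, Subgroup.commutator_eq_bot_iff_le_centralizer,
      Subgroup.map_le_iff_le_comap]
    have : (U.map (QuotientGroup.mk' V)).Normal :=
      Subgroup.Normal.map inferInstance _ (QuotientGroup.mk'_surjective V)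
    refine Subgroup.normalClosure_le_normal ?_
    rintro _ rfl
    rintro _ ⟨u, hu, rfl⟩
    rw [← commutatorElement_eq_one_iff_mul_comm, ← map_commutatorElement]
    exact (QuotientGroup.eq_one_iff _).2 (h1 u hu)
  refine ⟨n + 1, fun x hx => ?_⟩
  have h3 := h2 (Subgroup.commutator_mono hn le_rfl hx)
  rwa [MonoidHom.mem_ker, mp_apply, ← sub_eq_zero, ← map_one π.mapMatrix, ← map_sub, hm] at h3

/-- The main theorem for a faithful representation by two by two matrices. -/
theorem main [Algebra ℚ R] (ρ : G →* M2 R) (hρ : Function.Injective ρ) (g : G) (k : ℕ)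
    (hE : ∀ x : G, (fun y => y⁻¹ * g⁻¹ * y * g)^[k] x = 1) :
    Group.IsNilpotent (Subgroup.normalClosure ({g} : Set G)) ∧
      (Subgroup.zpowers g).IsSubnormal := by
  obtain ⟨c, e, δ, N, D⟩ := exists_dat ρ g
  obtain ⟨n, hn⟩ := D.tors k hE
  let I : ℕ → Submodule R (M2 R) := fun i =>
    Submodule.span R {x | ∃ L : List G, i ≤ L.length ∧ x = (L.map (cj ρ N)).prod}
  have hI : ∀ y, cj ρ N y ∈ I 1 := fun y => Submodule.subset_span ⟨[y], le_rfl, by simp⟩
  have hdeep : ∀ a, 4 * (2 ^ k * k) ≤ a → ∀ p ∈ I a, ∃ w : M2 R, p = δ ^ k • w := by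
    intro a ha p hp
    refine Submodule.span_induction (p := fun p _ => ∃ w : M2 R, p = δ ^ k • w) ?_ ⟨0, by simp⟩
      ?_ ?_ hp
    · rintro _ ⟨L, hL, rfl⟩
      exact D.prod_mem k hE L (ha.trans hL)
    · rintro _ _ _ _ ⟨w, rfl⟩ ⟨w', rfl⟩
      exact ⟨w + w', by rw [smul_add]⟩
    · rintro r _ _ ⟨w, rfl⟩
      exact ⟨r • w, smul_comm _ _ _⟩
  have hN : Group.IsNilpotent (Subgroup.normalClosure ({g} : Set G)) := by
    refine nilpotent_of_filtration ρ hρ I (fun i j hij => Submodule.span_mono ?_)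
      (fun i j x hx y hy => ?_) (Submodule.subset_span ⟨[], le_rfl, by simp⟩) _ ?_
      (2 * (4 * (2 ^ k * k))) n fun x hx a b hab p hp q hq => ?_
    · rintro _ ⟨L, hL, rfl⟩
      exact ⟨L, hij.trans hL, rfl⟩
    · have h1 := Submodule.mul_mem_mul hx hy
      rw [Submodule.span_mul_span] at h1
      refine Submodule.span_mono ?_ h1
      rintro _ ⟨_, ⟨L, hL, rfl⟩, _, ⟨L', hL', rfl⟩, rfl⟩
      exact ⟨L ++ L', by rw [List.length_append]; omega, by simp⟩
    · intro x hx
      obtain ⟨a, ha, hx'⟩ := Group.mem_conjugatesOfSet_iff.1 hx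
      rw [Set.mem_singleton_iff] at ha
      subst ha
      obtain ⟨y, rfl⟩ := isConj_iff.1 hx'
      have h1 := D.conj y⁻¹
      have h3 := D.conj_inv y⁻¹
      rw [inv_inv] at h1 h3
      refine ⟨⟨c, ?_⟩, ⟨e * c, ?_⟩⟩
      · rw [h1, add_sub_cancel_left]
        exact hI _
      · rw [conj_inv, h3, smul_sub, smul_smul, sub_sub_cancel_left]
        exact neg_mem ((I 1).smul_mem _ (hI _))
    · have h1 := hn x hx
      by_cases ha : 4 * (2 ^ k * k) ≤ a
      · obtain ⟨w, rfl⟩ := hdeep a ha p hp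
        rw [smul_mul_assoc, ← mul_smul_comm, h1, mul_zero, zero_mul]
      · obtain ⟨w, rfl⟩ := hdeep b (by omega) q hq
        rw [mul_smul_comm, ← smul_mul_assoc, ← mul_smul_comm, h1, mul_zero, zero_mul]
  refine ⟨hN, Subgroup.IsSubnormal.trans (K := Subgroup.normalClosure {g}) ?_
    (subnormal_of_nilpotent _ _) (Subgroup.Normal.isSubnormal inferInstance)⟩
  rw [Subgroup.zpowers_le]
  exact Subgroup.subset_normalClosure rfl

end Pool.Agent.Lib.MP_b39e30_al.Gl
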