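import Mathlib

/-!
Polarisation in commutative algebras over the rationals, and two facts on nilpotent groups.
-/

set_option autoImplicit false

namespace Pool.Agent.Lib.MP_b39e30_al.Gl

open Polynomial
open scoped commutatorElement

variable {R : Type} [CommRing R]

theorem unit_nat [Algebra ℚ R] {m : ℕ} (hm : m ≠ 0) : IsUnit (m : R) := by
  have h : IsUnit (m : ℚ) := IsUnit.mk0 _ (Nat.cast_ne_zero.2 hm)
  simpa using h.map (algebraMap ℚ R)

/-- A polynomial vanishing at all large natural numbers is zero. -/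
theorem poly_zero [Algebra ℚ R] (d : ℕ) : ∀ (p : R[X]) (a : ℕ), p.natDegree = d →
    (∀ m : ℕ, a ≤ m → p.eval (m : R) = 0) → p = 0 := by
  nontriviality R
  induction d with
  | zero =>
    intro p a hd h
    rw [eq_C_of_natDegree_eq_zero hd] at h ⊢
    have := h a le_rfl
    rw [eval_C] at this
    rw [this, C_0]
  | succ d ih =>
    intro p a hd h
    have hr : (X - C (a : R)) * (p /ₘ (X - C (a : R))) = p :=
      mul_divByMonic_eq_iff_isRoot.2 (h a le_rfl)
    have hq : p /ₘ (X - C (a : R)) = 0 := by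
      refine ih _ (a + 1) ?_ fun m hm => ?_
      · rw [natDegree_divByMonic _ (monic_X_sub_C _), natDegree_X_sub_C, hd]
        rfl
      · have h1 := h m (by omega)
        rw [← hr, eval_mul, eval_sub, eval_X, eval_C] at h1
        have hu : IsUnit ((m : R) - (a : R)) := by
          rw [← Nat.cast_sub (by omega : a ≤ m)]
          exact unit_nat (by omega)
        exact hu.mul_right_eq_zero.1 h1
    rw [← hr, hq, mul_zero]

/-- An additive submonoid that is nil of index `K` spans an ideal with zero `K`-th power. -/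
theorem span_pow_eq_bot [Algebra ℚ R] (S : AddSubmonoid R) (K : ℕ) (h : ∀ s ∈ S, s ^ K = 0) :
    Ideal.span (S : Set R) ^ K = ⊥ := by
  have key : ∀ j i : ℕ, j + i = K → ∀ p ∈ Ideal.span (S : Set R) ^ j, ∀ s ∈ S, p * s ^ i = 0 := by
    intro j
    induction j with
    | zero =>
      intro i hi p _ s hs
      rw [zero_add] at hi
      rw [hi, h s hs, mul_zero]
    | succ j ih =>
      intro i hi p hp s hs
      rw [pow_succ] at hp
      refine Submodule.mul_induction_on hp (fun p0 h0 a ha => ?_) fun x y hx hy => ?_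
      · refine Submodule.span_induction (p := fun a _ => p0 * a * s ^ i = 0) (fun a ha => ?_)
          (by simp) (fun x y _ _ hx hy => ?_) (fun r x _ hx => ?_) ha
        · have hq : C p0 * (C s + C a * X) ^ (i + 1) = 0 := by
            refine poly_zero _ _ 0 rfl fun m _ => ?_
            have hm : s + a * (m : R) ∈ S := by
              refine S.add_mem hs ?_
              rw [mul_comm, ← nsmul_eq_mul]
              exact S.nsmul_mem ha m
            simpa using ih (i + 1) (by omega) p0 h0 _ hm
          have h2 := congrArg (fun q => eval 0 (derivative q)) hq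
          simp only [derivative_mul, derivative_C, zero_mul, zero_add, derivative_pow,
            derivative_add, derivative_X, mul_one, eval_mul, eval_C, eval_pow, eval_add, eval_X,
            mul_zero, add_zero, derivative_zero, eval_zero, Nat.add_sub_cancel] at h2
          refine (unit_nat (R := R) (Nat.succ_ne_zero i)).mul_right_eq_zero.1 ?_
          linear_combination h2
        · rw [mul_add, add_mul, hx, hy, add_zero]
        · rw [smul_eq_mul]
          linear_combination r * hx
      · rw [add_mul, hx, hy, add_zero]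
  rw [eq_bot_iff]
  intro p hp
  simpa using key K 0 rfl p hp 0 S.zero_mem

/-- Every subgroup of a nilpotent group is subnormal. -/
theorem subnormal_of_nilpotent (G : Type) [Group G] [Group.IsNilpotent G] :
    ∀ H : Subgroup G, H.IsSubnormal := by
  refine Group.nilpotent_center_quotient_ind
    (P := fun G _ _ => ∀ H : Subgroup G, H.IsSubnormal) G (fun G _ _ H => ?_) fun G _ _ ih H => ?_
  · rw [Subsingleton.elim H ⊤]
    exact Subgroup.IsSubnormal.top
  · have h1 := (ih (H.map (QuotientGroup.mk' (Subgroup.center G)))).comap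
      (QuotientGroup.mk' (Subgroup.center G))
    rw [Subgroup.comap_map_eq, QuotientGroup.ker_mk'] at h1
    refine Subgroup.IsSubnormal.step H _ le_sup_left h1 ?_
    rw [Subgroup.normal_subgroupOf_iff_le_normalizer le_sup_left]
    exact sup_le Subgroup.le_normalizer (Subgroup.center_le_normalizer _)

/-- If the commutators with a bounded Engel element commute, its normal closure is nilpotent. -/
theorem nil_of_comm {G : Type} [Group G] (g : G) (k : ℕ)
    (hE : ∀ x : G, (fun y => y⁻¹ * g⁻¹ * y * g)^[k] x = 1)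
    (hc : ∀ y z : G, Commute (y⁻¹ * g⁻¹ * y * g) (z⁻¹ * g⁻¹ * z * g)) :
    Group.IsNilpotent (Subgroup.normalClosure ({g} : Set G)) := by
  set H := Subgroup.normalClosure ({g} : Set G) with hH
  have hg : g ∈ H := Subgroup.subset_normalClosure rfl
  have hy : ∀ y : G, y⁻¹ * g * y ∈ H := fun y =>
    (inferInstance : H.Normal).conj_mem' g hg y
  have hcy : ∀ y : G, y⁻¹ * g⁻¹ * y * g ∈ H := fun y =>
    mul_mem ((inferInstance : H.Normal).conj_mem' _ (inv_mem hg) y) hg
  have ind : ∀ P : H → Prop, (∀ y, P ⟨_, hy y⟩) → P 1 → (∀ a b, P a → P b → P (a * b)) →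
      (∀ a, P a → P a⁻¹) → ∀ a, P a := by
    intro P h1 h2 h3 h4 a
    refine Subgroup.closure_induction (p := fun x hx => P ⟨x, hx⟩) (fun x hx => ?_) h2
      (fun x y hx hy' => h3 ⟨x, hx⟩ ⟨y, hy'⟩) (fun x hx => h4 ⟨x, hx⟩) a.2
    obtain ⟨b, hb, hx'⟩ := Group.mem_conjugatesOfSet_iff.1 hx
    rw [Set.mem_singleton_iff] at hb
    subst hb
    obtain ⟨y, rfl⟩ := isConj_iff.1 hx'
    simpa using h1 y⁻¹
  have red : ∀ (j : ℕ) (x : H), (∀ y, Commute
      (QuotientGroup.mk' (Subgroup.upperCentralSeries H j) x)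
      (QuotientGroup.mk' (Subgroup.upperCentralSeries H j) ⟨_, hy y⟩)) →
      x ∈ Subgroup.upperCentralSeries H (j + 1) := by
    intro j x hx
    rw [Subgroup.mem_upperCentralSeries_succ_iff]
    intro y
    rw [← QuotientGroup.eq_one_iff, ← QuotientGroup.mk'_apply, map_commutatorElement,
      commutatorElement_eq_one_iff_commute]
    refine ind (fun y => Commute (QuotientGroup.mk' (Subgroup.upperCentralSeries H j) x)
      (QuotientGroup.mk' (Subgroup.upperCentralSeries H j) y)) hx ?_ (fun a b ha hb => ?_)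
      (fun a ha => ?_) y
    · rw [map_one]
      exact Commute.one_right _
    · rw [map_mul]
      exact ha.mul_right hb
    · rw [map_inv]
      exact ha.inv_right
  have e1 : ∀ y, (⟨_, hy y⟩ : H) = ⟨g, hg⟩ * (⟨_, hcy y⟩ : H)⁻¹ := fun y => Subtype.ext (by
    simp only [Subgroup.coe_mul, Subgroup.coe_inv]
    group)
  have key : ∀ (j : ℕ) (y : G), (fun y => y⁻¹ * g⁻¹ * y * g)^[j] (y⁻¹ * g⁻¹ * y * g) = 1 →
      (⟨_, hcy y⟩ : H) ∈ Subgroup.upperCentralSeries H j := by
    intro j
    induction j with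
    | zero => intro y h; exact Subgroup.mem_bot.2 (Subtype.ext h)
    | succ j ih =>
      intro y h
      have h1 := ih _ h
      refine red j _ fun z => ?_
      rw [e1, map_mul, map_inv]
      have hyz : Commute (⟨_, hcy y⟩ : H) ⟨_, hcy z⟩ := Subtype.ext (hc y z).eq
      refine Commute.mul_right ?_ (Commute.inv_right (hyz.map _))
      rw [← QuotientGroup.eq_one_iff, ← QuotientGroup.mk'_apply] at h1
      have e2 : (⟨_, hcy (y⁻¹ * g⁻¹ * y * g)⟩ : H) = ⁅(⟨_, hcy y⟩ : H)⁻¹, (⟨g, hg⟩ : H)⁻¹⁆ :=
        Subtype.ext (by simp only [commutatorElement_def, Subgroup.coe_mul, inv_inv,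
          Subgroup.coe_inv])
      rw [e2, map_commutatorElement, commutatorElement_eq_one_iff_commute, map_inv,
        map_inv] at h1
      simpa using h1
  refine ⟨⟨k + 1, eq_top_iff.2 fun a _ => ?_⟩⟩
  refine ind (· ∈ Subgroup.upperCentralSeries H (k + 1)) (fun y => red k _ fun z => ?_)
    (one_mem _) (fun a b => mul_mem) (fun a => inv_mem) a
  have h1 : ∀ y, QuotientGroup.mk' (Subgroup.upperCentralSeries H k) ⟨_, hcy y⟩ = 1 := fun y =>
    (QuotientGroup.eq_one_iff _).2 (key k y (hE _))
  rw [e1, e1, map_mul, map_mul, map_inv, map_inv, h1, h1]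

/-- The same modulo a normal subgroup. -/
theorem lcs_le_of_comm {G : Type} [Group G] (g : G) (k : ℕ)
    (hE : ∀ x : G, (fun y => y⁻¹ * g⁻¹ * y * g)^[k] x = 1) (Z : Subgroup G) [Z.Normal]
    (hc : ∀ y z : G, ⁅y⁻¹ * g⁻¹ * y * g, z⁻¹ * g⁻¹ * z * g⁆ ∈ Z) :
    ∃ c, (Subgroup.normalClosure ({g} : Set G)).lowerCentralSeries c ≤ Z := by
  have h1 := nil_of_comm (QuotientGroup.mk' Z g) k (fun x => ?_) fun y z => ?_
  · obtain ⟨c, h2⟩ := (Subgroup.isNilpotent_iff_lowerCentralSeries _).1 h1
    refine ⟨c, ?_⟩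
    rw [← Set.image_singleton, ← Subgroup.map_normalClosure _ _ (QuotientGroup.mk'_surjective Z),
      ← Subgroup.map_lowerCentralSeries, Subgroup.map_eq_bot_iff, QuotientGroup.ker_mk'] at h2
    exact h2
  · obtain ⟨x, rfl⟩ := QuotientGroup.mk'_surjective Z x
    rw [← map_one (QuotientGroup.mk' Z), ← hE x]
    exact (Function.Semiconj.iterate_right (f := QuotientGroup.mk' Z) (fun _ => by simp) k x).symm
  · obtain ⟨y, rfl⟩ := QuotientGroup.mk'_surjective Z y
    obtain ⟨z, rfl⟩ := QuotientGroup.mk'_surjective Z z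
    have h2 := (QuotientGroup.eq_one_iff _).2 (hc y z)
    rw [← QuotientGroup.mk'_apply, map_commutatorElement,
      commutatorElement_eq_one_iff_commute] at h2
    simpa using h2

/-- `w` is killed by two sided products of total weight at least `j`. -/
def Van {A : Type} [Ring A] [Algebra R A] (I : ℕ → Submodule R A) (j : ℕ) (w : A) : Prop :=
  ∀ a b, j ≤ a + b → ∀ p ∈ I a, ∀ q ∈ I b, p * w * q = 0

/-- A group of units that are scalar modulo a filtration is nilpotent as soon as a term of its lower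
central series is killed by the deep part of the filtration. -/
theorem nilpotent_of_filtration {A G : Type} [Ring A] [Algebra R A] [Group G] (ρ : G →* A)
    (hρ : Function.Injective ρ) (I : ℕ → Submodule R A) (anti : Antitone I)
    (hmul : ∀ i j, ∀ x ∈ I i, ∀ y ∈ I j, x * y ∈ I (i + j)) (one : (1 : A) ∈ I 0) (T : Set G)
    (hT : ∀ x ∈ T, (∃ c : R, ρ x - c • 1 ∈ I 1) ∧ ∃ c : R, ρ x⁻¹ - c • 1 ∈ I 1) (j : ℕ) :
    ∀ c, (∀ x ∈ (Subgroup.closure T).lowerCentralSeries c, Van I j (ρ x - 1)) →
    Group.IsNilpotent (Subgroup.closure T) := by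
  have hE : ∀ x ∈ Subgroup.closure T,
      (∃ c : R, ρ x - c • 1 ∈ I 1) ∧ ∃ c : R, ρ x⁻¹ - c • 1 ∈ I 1 := by
    have mul : ∀ x y : G, (∃ c : R, ρ x - c • 1 ∈ I 1) → (∃ c : R, ρ y - c • 1 ∈ I 1) →
        ∃ c : R, ρ (x * y) - c • 1 ∈ I 1 := by
      rintro x y ⟨c, hc⟩ ⟨e, he⟩
      refine ⟨c * e, ?_⟩
      have e1 : ρ (x * y) - (c * e) • (1 : A)
          = (ρ x - c • 1) * (ρ y - e • 1) + c • (ρ y - e • 1) + e • (ρ x - c • 1) := by
        simp only [map_mul, mul_sub, sub_mul, smul_sub, smul_mul_assoc, mul_smul_comm, one_mul,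
          mul_one, smul_smul, mul_comm e c]
        abel
      rw [e1]
      exact add_mem (add_mem (anti (by norm_num) (hmul 1 1 _ hc _ he)) ((I 1).smul_mem _ he))
        ((I 1).smul_mem _ hc)
    intro x hx
    refine Subgroup.closure_induction (p := fun x _ =>
      (∃ c : R, ρ x - c • 1 ∈ I 1) ∧ ∃ c : R, ρ x⁻¹ - c • 1 ∈ I 1) hT
      ⟨⟨1, by simp⟩, ⟨1, by simp⟩⟩ (fun x y _ _ hx hy => ⟨mul _ _ hx.1 hy.1, ?_⟩)
      (fun x _ hx => ⟨hx.2, by simpa using hx.1⟩) hx
    rw [mul_inv_rev]
    exact mul _ _ hy.2 hx.2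
  have h0 : ∀ x ∈ Subgroup.closure T, ρ x ∈ I 0 := by
    intro x hx
    obtain ⟨c, hc⟩ := (hE x hx).1
    have := add_mem (anti (Nat.zero_le 1) hc) ((I 0).smul_mem c one)
    simpa using this
  have vadd : ∀ j w w', Van I j w → Van I j w' → Van I j (w + w') := by
    intro j w w' h h' a b hab p hp q hq
    rw [mul_add, add_mul, h a b hab p hp q hq, h' a b hab p hp q hq, add_zero]
  have vneg : ∀ j w, Van I j w → Van I j (-w) := by
    intro j w h a b hab p hp q hq
    rw [mul_neg, neg_mul, h a b hab p hp q hq, neg_zero]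
  have vl : ∀ j i w, Van I (j + i) w → ∀ r ∈ I i, Van I j (r * w) := by
    intro j i w h r hr a b hab p hp q hq
    rw [← mul_assoc]
    exact h (a + i) b (by omega) _ (hmul _ _ _ hp _ hr) q hq
  have vr : ∀ j i w, Van I (j + i) w → ∀ r ∈ I i, Van I j (w * r) := by
    intro j i w h r hr a b hab p hp q hq
    rw [← mul_assoc, mul_assoc _ r]
    exact h a (i + b) (by omega) p hp _ (hmul _ _ _ hr _ hq)
  induction j with
  | zero =>
    intro c h
    rw [Subgroup.isNilpotent_iff_lowerCentralSeries]
    refine ⟨c, eq_bot_iff.2 fun x hx => ?_⟩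
    have h1 := h x hx 0 0 le_rfl 1 one 1 one
    rw [one_mul, mul_one, sub_eq_zero, ← map_one ρ] at h1
    exact Subgroup.mem_bot.2 (hρ h1)
  | succ j ih =>
    intro c h
    refine ih (c + 1) fun x hx => ?_
    rw [Subgroup.mem_lowerCentralSeries_succ_iff] at hx
    refine (Subgroup.closure_induction (p := fun x _ =>
      x ∈ Subgroup.closure T ∧ Van I j (ρ x - 1)) ?_
      ⟨one_mem _, fun a b _ p _ q _ => by simp⟩
      (fun x y _ _ hx hy => ⟨mul_mem hx.1 hy.1, ?_⟩) (fun x _ hx => ⟨inv_mem hx.1, ?_⟩) hx).2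
    · rintro _ ⟨x, hx, y, hy, rfl⟩
      have hx' := Subgroup.lowerCentralSeries_le_self _ _ hx
      refine ⟨?_, ?_⟩
      · rw [commutatorElement_def]
        exact mul_mem (mul_mem (mul_mem hx' hy) (inv_mem hx')) (inv_mem hy)
      obtain ⟨e, he⟩ := (hE y hy).1
      have e1 : ρ ⁅x, y⁆ - 1 = ((ρ x - 1) * (ρ y - e • 1) + -((ρ y - e • 1) * (ρ x - 1)))
          * ρ (x⁻¹ * y⁻¹) := by
        have e2 : (ρ x - 1) * (ρ y - e • 1) + -((ρ y - e • 1) * (ρ x - 1))
            = ρ x * ρ y - ρ y * ρ x := by
          simp only [mul_sub, sub_mul, smul_mul_assoc, mul_smul_comm, one_mul, mul_one, smul_sub]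
          abel
        rw [e2, sub_mul, ← map_mul, ← map_mul, ← map_mul, ← map_mul, commutatorElement_def]
        congr 1
        · congr 1
          group
        · rw [← map_one ρ]
          congr 1
          group
      rw [e1]
      exact vr j 0 _ (vadd _ _ _ (vr j 1 _ (h x hx) _ he) (vneg _ _ (vl j 1 _ (h x hx) _ he))) _
        (h0 _ (mul_mem (inv_mem hx') (inv_mem hy)))
    · have e1 : ρ (x * y) - 1 = (ρ x - 1) * ρ y + (ρ y - 1) := by
        rw [map_mul, sub_mul, one_mul]
        abel
      rw [e1]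
      exact vadd _ _ _ (vr j 0 _ hx.2 _ (h0 _ hy.1)) hy.2
    · have e1 : ρ x⁻¹ - 1 = -((ρ x - 1) * ρ x⁻¹) := by
        rw [sub_mul, ← map_mul, mul_inv_cancel, map_one, one_mul]
        abel
      rw [e1]
      exact vneg _ _ (vr j 0 _ hx.2 _ (h0 _ (inv_mem hx.1)))

/-- Two traces of elements of two-power order related by `v = 2 u - 2`. -/
theorem cheb {K : Type} [Field K] [CharZero K] (k : ℕ) (u : K)
    (h1 : (fun x => x ^ 2 - 2)^[k] (2 * u - 2) = 2) (h2 : (fun x => x ^ 2 - 2)^[k] u = 2) :
    u = 0 ∨ u = 2 := by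
  have int : ∀ (k : ℕ) (x : K), (fun x => x ^ 2 - 2)^[k] x = 2 → IsIntegral ℤ x := by
    intro k
    have two : IsIntegral ℤ (2 : K) := by
      simpa using isIntegral_algebraMap (R := ℤ) (A := K) (x := 2)
    induction k with
    | zero => intro x hx; rw [show x = 2 from hx]; exact two
    | succ k ih =>
      intro x hx
      refine IsIntegral.of_pow two_pos ?_
      simpa using (ih _ hx).add two
  have arr : ∀ (k : ℕ) (x : K), (fun x => x ^ 2 - 2)^[k] x = 2 →
      x = 2 ∨ x = -2 ∨ ∃ j, (fun x => x ^ 2 - 2)^[j] x = 0 := by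
    intro k
    induction k with
    | zero => intro x hx; exact Or.inl hx
    | succ k ih =>
      intro x hx
      rcases ih _ hx with h | h | ⟨j, h⟩
      · have : (x - 2) * (x + 2) = 0 := by linear_combination h
        rcases mul_eq_zero.1 this with h | h
        · exact Or.inl (by linear_combination h)
        · exact Or.inr (Or.inl (by linear_combination h))
      · have : x ^ 2 = 0 := by linear_combination h
        exact Or.inr (Or.inr ⟨0, pow_eq_zero_iff two_ne_zero |>.1 this⟩)
      · exact Or.inr (Or.inr ⟨j + 1, h⟩)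
  have ev : ∀ (j : ℕ) (s : K), IsIntegral ℤ s → (fun x => x ^ 2 - 2)^[j + 1] (2 * s) ≠ 0 := by
    intro j
    induction j with
    | zero =>
      intro s hs h
      have h3 : s ^ 2 = algebraMap ℚ K (1 / 2) := by
        simp only [zero_add, Function.iterate_one] at h
        rw [map_div₀, map_one, map_ofNat]
        linear_combination (1 / 4 : K) * h
      have h4 := hs.pow 2
      rw [h3, isIntegral_algebraMap_iff (algebraMap ℚ K).injective,
        IsIntegrallyClosed.isIntegral_iff] at h4
      obtain ⟨z, hz⟩ := h4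
      have h5 : (2 * z : ℚ) = 1 := by
        rw [show (z : ℚ) = 1 / 2 from hz]
        norm_num
      have h6 : 2 * z = 1 := by exact_mod_cast h5
      omega
    | succ j ih =>
      intro s hs h
      rw [Function.iterate_succ_apply] at h
      refine ih (s ^ 2 + s ^ 2 - 1) (((hs.pow 2).add (hs.pow 2)).sub isIntegral_one) ?_
      rw [← h]
      congr 1
      ring
  rcases arr k _ h1 with h | h | ⟨j, h⟩
  · exact Or.inr (by linear_combination (1 / 2 : K) * h)
  · exact Or.inl (by linear_combination (1 / 2 : K) * h)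
  · exfalso
    rcases j with _ | j
    · have hu : u = 1 := by
        simp only [Function.iterate_zero, id] at h
        linear_combination (1 / 2 : K) * h
      have h3 : ∀ j : ℕ, (fun x : K => x ^ 2 - 2)^[j] 1 ^ 2 = 1 := by
        intro j
        induction j with
        | zero => simp
        | succ j ih => rw [Function.iterate_succ_apply', ih]; norm_num
      have h4 := h3 k
      rw [← hu, h2, hu] at h4
      norm_num at h4
    · refine ev j (u - 1) ((int k u h2).sub isIntegral_one) ?_
      rw [← h]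
      congr 1
      ring

end Pool.Agent.Lib.MP_b39e30_al.Gl
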