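import Pool.Agent.Lib.MP_b39e30_al.Gl.Pol

/-!
Bounded left Engel elements with nilpotent discriminant in groups of two by two matrices over a
commutative algebra over the rationals have a nilpotent normal closure.
-/

set_option autoImplicit false

namespace Pool.Agent.Lib.MP_b39e30_al.Gl

open Polynomial Matrix

variable {R : Type} [CommRing R] {G : Type} [Group G]

/-- Two by two matrices. -/
abbrev M2 (R : Type) : Type := Matrix (Fin 2) (Fin 2) R

/-- The polarised Cayley-Hamilton identity. -/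
theorem ch (A B : M2 R) :
    A * B + B * A = trace A • B + trace B • A + (trace (A * B) - trace A * trace B) • 1 := by
  ext i j
  fin_cases i <;> fin_cases j <;>
    simp [Matrix.mul_apply, Fin.sum_univ_two, Matrix.trace_fin_two] <;> ring

theorem sandwich (a n : M2 R) (h2 : n * n = 0) (ht : trace n = 0) :
    n * a * n = trace (a * n) • n := by
  have h := congrArg (· * n) (ch a n)
  simp only [add_mul, smul_mul_assoc, ht, zero_smul, mul_zero, sub_zero, one_mul, h2, smul_zero,
    mul_assoc, zero_add, add_zero] at h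
  rw [mul_assoc, h]

theorem trace_inv (a a' n : M2 R) (h : a' * a = 1) (ht : trace n = 0) :
    trace (a' * n) * a.det = -trace (a * n) := by
  have h1 : a.det • a' = adjugate a := by
    rw [← mul_one a', ← mul_smul_comm, ← mul_adjugate, ← mul_assoc, h, one_mul]
  have h2 : trace (a' * n) * a.det = trace (adjugate a * n) := by
    rw [← h1, smul_mul_assoc, trace_smul, smul_eq_mul, mul_comm]
  rw [h2, adjugate_fin_two]
  simp only [trace_fin_two, Matrix.mul_apply, Fin.sum_univ_two, of_apply, cons_val', cons_val_zero,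
    cons_val_one, cons_val_fin_one] at ht ⊢
  linear_combination (a 0 0 + a 1 1) * ht

/-- A product of four trace zero matrices lies in the ideal of the pairwise traces. -/
theorem four [Algebra ℚ R] (L : Ideal R) (a b c d : M2 R) (ha : trace a = 0) (hb : trace b = 0)
    (hc : trace c = 0) (hd : trace d = 0) (hab : trace (a * b) ∈ L) (hac : trace (a * c) ∈ L)
    (had : trace (a * d) ∈ L) (hbc : trace (b * c) ∈ L) (hbd : trace (b * d) ∈ L)
    (hcd : trace (c * d) ∈ L) (i j : Fin 2) : (a * b * c * d) i j ∈ L := by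
  have key : (4 : R) • (a * b * c * d) =
      trace (a * b) • (c * d - d * c + trace (c * d) • 1)
      - trace (a * c) • (b * d - d * b + trace (b * d) • 1)
      + trace (a * d) • (b * c - c * b + trace (b * c) • 1)
      + trace (b * c) • (a * d - d * a) - trace (b * d) • (a * c - c * a)
      + trace (c * d) • (a * b - b * a) := by
    rw [trace_fin_two, add_eq_zero_iff_neg_eq] at ha hb hc hd
    ext i j
    fin_cases i <;> fin_cases j <;>
      simp [Matrix.mul_apply, Fin.sum_univ_two, Matrix.trace_fin_two, ← ha, ← hb, ← hc, ← hd] <;>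
      ring
  have h4 : IsUnit (4 : R) := by simpa using unit_nat (R := R) (m := 4) (by norm_num)
  rw [← Ideal.unit_mul_mem_iff_mem L h4, ← smul_eq_mul, ← Matrix.smul_apply, key]
  simp only [Matrix.add_apply (_ : M2 R), Matrix.sub_apply (_ : M2 R), Matrix.smul_apply,
    smul_eq_mul]
  exact add_mem (sub_mem (add_mem (add_mem (sub_mem (L.mul_mem_right _ hab)
    (L.mul_mem_right _ hac)) (L.mul_mem_right _ had)) (L.mul_mem_right _ hbc))
    (L.mul_mem_right _ hbd)) (L.mul_mem_right _ hcd)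

theorem rho_inv (ρ : G →* M2 R) (x : G) : ρ x⁻¹ * ρ x = 1 := by
  rw [← map_mul, inv_mul_cancel, map_one]

theorem rho_inv' (ρ : G →* M2 R) (x : G) : ρ x * ρ x⁻¹ = 1 := by
  rw [← map_mul, mul_inv_cancel, map_one]

theorem rho_g_inv (ρ : G →* M2 R) {g : G} {c δ e : R} {n : M2 R} (hg : ρ g = c • (1 + n))
    (h2 : n * n = δ • 1) (he : e * (c * (1 - δ)) = 1) : ρ g⁻¹ = e • (1 - n) := by
  have h1 : ρ g * (e • (1 - n)) = 1 := by
    rw [hg, smul_mul_assoc, mul_smul_comm, smul_smul]
    have : (1 + n) * (1 - n) = (1 - δ) • (1 : M2 R) := by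
      rw [add_mul, mul_sub, mul_sub, h2, sub_smul]
      simp
    rw [this, smul_smul, show c * e * (1 - δ) = 1 by linear_combination he, one_smul]
  calc ρ g⁻¹ = ρ g⁻¹ * (ρ g * (e • (1 - n))) := by rw [h1, mul_one]
    _ = e • (1 - n) := by rw [← mul_assoc, rho_inv, one_mul]

/-- The conjugate of `n` by `y`. -/
def cj (ρ : G →* M2 R) (n : M2 R) (y : G) : M2 R := ρ y⁻¹ * n * ρ y

theorem trace_cj (ρ : G →* M2 R) (n : M2 R) (y : G) : trace (cj ρ n y) = trace n := by
  rw [cj, trace_mul_cycle, rho_inv', one_mul]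

theorem trace_cj_mul (ρ : G →* M2 R) (n : M2 R) (y z : G) :
    trace (cj ρ n y * cj ρ n z) = trace (cj ρ n (y * z⁻¹) * n) := by
  simp only [cj, map_mul, _root_.mul_inv_rev, inv_inv]
  rw [← mul_assoc, trace_mul_comm]
  simp only [mul_assoc]

theorem rho_conj (ρ : G →* M2 R) {x : G} {c s : R} {n : M2 R} (hx : ρ x = c • (1 + s • n))
    (y : G) : ρ (y⁻¹ * x * y) = c • (1 + s • cj ρ n y) := by
  rw [map_mul, map_mul, hx, cj]
  simp only [mul_smul_comm, smul_mul_assoc, mul_add, add_mul, mul_one, rho_inv]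

/-- The trace against `n` is squared by the Engel map. -/
theorem lam_pow (ρ : G →* M2 R) {g : G} {c : R} {n : M2 R} (hc : IsUnit c)
    (hg : ρ g = c • (1 + n)) (h2 : n * n = 0) (ht : trace n = 0) (k : ℕ) :
    ∀ x : G, trace (ρ ((fun y => y⁻¹ * g⁻¹ * y * g)^[k] x) * n) = 0 →
      trace (ρ x * n) ^ 2 ^ k = 0 := by
  obtain ⟨e, he⟩ := hc.exists_left_inv
  have hi : ρ g⁻¹ = e • (1 - n) := rho_g_inv ρ (δ := 0) hg (by simpa using h2) (by simpa using he)
  have step : ∀ x : G, trace (ρ (x⁻¹ * g⁻¹ * x * g) * n) * (ρ x).det = trace (ρ x * n) ^ 2 := by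
    intro x
    have h1 : ρ (x⁻¹ * g⁻¹ * x * g) * n = n - trace (ρ x * n) • (ρ x⁻¹ * n) := by
      rw [map_mul, map_mul, map_mul, hi, hg, ← mul_smul_comm, ← sandwich _ _ h2 ht]
      simp only [mul_smul_comm, smul_mul_assoc, smul_smul, mul_assoc, add_mul, one_mul, h2,
        add_zero, sub_mul, mul_sub]
      rw [← mul_assoc (ρ x⁻¹) (ρ x), rho_inv, one_mul, mul_comm c e, he, one_smul]
    rw [h1, trace_sub, ht, trace_smul, smul_eq_mul]
    linear_combination (-trace (ρ x * n)) * trace_inv _ _ n (rho_inv ρ x) ht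
  induction k with
  | zero => intro x hx; simpa using hx
  | succ k ih =>
    intro x hx
    rw [Function.iterate_succ_apply] at hx
    have h1 := ih _ hx
    rw [pow_succ', pow_mul, ← step, mul_pow, h1, zero_mul]

theorem trace_prod (l : List (M2 R)) : ∀ m : M2 R, ∃ w : R[X], ∀ s : R,
    trace ((l.map fun a => 1 + s • a).prod * m)
      = trace m + s * trace (l.sum * m) + s ^ 2 * w.eval s := by
  induction l with
  | nil => intro m; exact ⟨0, fun s => by simp⟩
  | cons a l ih =>
    intro m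
    obtain ⟨w1, h1⟩ := ih m
    obtain ⟨w2, h2⟩ := ih (m * a)
    refine ⟨w1 + C (trace (l.sum * (m * a))) + X * w2, fun s => ?_⟩
    rw [List.map_cons, List.prod_cons, List.sum_cons, add_mul, add_mul, one_mul, trace_add, h1,
      smul_mul_assoc, smul_mul_assoc, trace_smul, mul_assoc a, trace_mul_comm a, mul_assoc, h2,
      add_mul, trace_add, trace_mul_comm a m]
    simp only [smul_eq_mul, eval_add, eval_C, eval_mul, eval_X]
    ring

/-- The square zero case: the traces of `n` against its conjugates span a nilpotent ideal. -/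
theorem span_zero [Algebra ℚ R] (ρ : G →* M2 R) {g : G} {c : R} {n : M2 R} (hc : IsUnit c)
    (hg : ρ g = c • (1 + n)) (h2 : n * n = 0) (ht : trace n = 0) (k : ℕ)
    (hE : ∀ x : G, (fun y => y⁻¹ * g⁻¹ * y * g)^[k] x = 1) :
    Ideal.span (Set.range fun y => trace (cj ρ n y * n)) ^ 2 ^ k = ⊥ := by
  have hpow : ∀ s : ℕ, ρ (g ^ s) = c ^ s • (1 + (s : R) • n) := by
    intro s
    induction s with
    | zero => simp
    | succ s ih =>
      rw [pow_succ, map_mul, ih, hg, smul_mul_assoc, mul_smul_comm, smul_smul, pow_succ]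
      congr 1
      simp only [add_mul, mul_add, one_mul, mul_one, smul_mul_assoc, h2, smul_zero, add_zero,
        Nat.cast_succ, add_smul, one_smul]
      abel
  have hprod : ∀ (s : ℕ) (L : List G), ρ (L.map fun y => y⁻¹ * g ^ s * y).prod
      = (c ^ s) ^ L.length • ((L.map (cj ρ n)).map fun a => 1 + (s : R) • a).prod := by
    intro s L
    induction L with
    | nil => simp
    | cons y L ih =>
      simp only [List.map_cons, List.prod_cons, List.length_cons]
      rw [map_mul, ih, rho_conj ρ (hpow s), smul_mul_assoc, mul_smul_comm, smul_smul, pow_succ']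
  have hL : ∀ L : List G, trace ((L.map (cj ρ n)).sum * n) ^ 2 ^ k = 0 := by
    intro L
    obtain ⟨w, hw⟩ := trace_prod (L.map (cj ρ n)) n
    have hq : (C (trace ((L.map (cj ρ n)).sum * n)) + X * w) ^ 2 ^ k = 0 := by
      refine poly_zero _ _ 1 rfl fun s hs => ?_
      have h1 := lam_pow ρ hc hg h2 ht k (L.map fun y => y⁻¹ * g ^ s * y).prod
        (by rw [hE, map_one, one_mul, ht])
      rw [hprod, smul_mul_assoc, trace_smul, hw, ht, smul_eq_mul, mul_pow,
        (((hc.pow s).pow _).pow _).mul_right_eq_zero] at h1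
      refine ((unit_nat (R := R) (m := s) (by omega)).pow (2 ^ k)).mul_right_eq_zero.1 ?_
      rw [eval_pow, ← mul_pow, ← h1]
      congr 1
      simp only [eval_add, eval_C, eval_mul, eval_X]
      ring
    simpa using congrArg (eval 0) hq
  let S : AddSubmonoid R :=
    { carrier := {s | ∃ L : List G, s = trace ((L.map (cj ρ n)).sum * n)}
      zero_mem' := ⟨[], by simp⟩
      add_mem' := by
        rintro _ _ ⟨L, rfl⟩ ⟨L', rfl⟩
        exact ⟨L ++ L', by simp [add_mul]⟩ }
  have h1 := span_pow_eq_bot S (2 ^ k) (by rintro _ ⟨L, rfl⟩; exact hL L)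
  rw [eq_bot_iff, ← h1]
  refine Ideal.pow_right_mono (Ideal.span_mono ?_) _
  rintro _ ⟨y, rfl⟩
  exact ⟨[y], by simp⟩

/-- The data attached to `g`: half its trace, the inverse of its determinant, its trace zero part
and the square of that part. -/
structure Dat (ρ : G →* M2 R) (g : G) (c e δ : R) (N : M2 R) : Prop where
  hg : ρ g = c • 1 + N
  ht : trace N = 0
  h2 : N * N = δ • 1
  he : e * (c ^ 2 - δ) = 1

theorem exists_dat [Algebra ℚ R] (ρ : G →* M2 R) (g : G) : ∃ c e δ N, Dat ρ g c e δ N := by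
  have h2 : IsUnit (2 : R) := by simpa using unit_nat (R := R) (m := 2) (by norm_num)
  obtain ⟨u, hu⟩ := h2.exists_left_inv
  obtain ⟨e, he⟩ := (isUnit_det_of_left_inverse (rho_inv ρ g)).exists_left_inv
  refine ⟨u * trace (ρ g), e, (u * trace (ρ g)) ^ 2 - (ρ g).det, ρ g - (u * trace (ρ g)) • 1,
    by simp, ?_, ?_, by simpa using he⟩
  · rw [trace_sub, trace_smul, trace_one, smul_eq_mul]
    simp only [Fintype.card_fin, Nat.cast_ofNat]
    linear_combination (-trace (ρ g)) * hu
  · ext i j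
    fin_cases i <;> fin_cases j <;>
      simp [Matrix.mul_apply, Fin.sum_univ_two, Matrix.trace_fin_two, Matrix.det_fin_two] <;>
      grind

/-- Change of coefficients. -/
def mp {S : Type} [CommRing S] (π : R →+* S) (ρ : G →* M2 R) : G →* M2 S :=
  (π.mapMatrix : M2 R →+* M2 S).toMonoidHom.comp ρ

theorem mp_apply {S : Type} [CommRing S] (π : R →+* S) (ρ : G →* M2 R) (x : G) :
    mp π ρ x = π.mapMatrix (ρ x) := rfl

theorem map_smul' {S : Type} [CommRing S] (π : R →+* S) (r : R) (a : M2 R) :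
    π.mapMatrix (r • a) = π r • π.mapMatrix a := by
  ext i j
  simp

theorem trace_map' {S : Type} [CommRing S] (π : R →+* S) (a : M2 R) :
    trace (π.mapMatrix a) = π (trace a) := by
  simp [trace_fin_two]

theorem cj_one (ρ : G →* M2 R) (n : M2 R) : cj ρ n 1 = n := by simp [cj]

theorem cj_mul (ρ : G →* M2 R) (n : M2 R) (x y : G) :
    cj ρ n (x * y) = ρ y⁻¹ * cj ρ n x * ρ y := by
  simp only [cj, _root_.mul_inv_rev, map_mul, mul_assoc]

variable {ρ : G →* M2 R} {g : G} {c e δ : R} {N : M2 R}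

theorem Dat.map {S : Type} [CommRing S] (D : Dat ρ g c e δ N) (π : R →+* S) :
    Dat (mp π ρ) g (π c) (π e) (π δ) (π.mapMatrix N) where
  hg := by rw [mp_apply, D.hg, map_add, map_smul', map_one]
  ht := by rw [trace_map', D.ht, map_zero]
  h2 := by rw [← map_mul, D.h2, map_smul', map_one]
  he := by rw [← map_pow, ← map_sub, ← map_mul, D.he, map_one]

theorem Dat.inv (D : Dat ρ g c e δ N) : ρ g⁻¹ = e • (c • 1 - N) := by
  have h1 : ρ g * (e • (c • 1 - N)) = 1 := by
    have : (c • 1 + N) * (c • 1 - N) = (c ^ 2 - δ) • (1 : M2 R) := by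
      rw [add_mul, mul_sub, mul_sub, D.h2, sub_smul]
      simp [smul_smul, pow_two]
    rw [D.hg, mul_smul_comm, this, smul_smul, D.he, one_smul]
  calc ρ g⁻¹ = ρ g⁻¹ * (ρ g * (e • (c • 1 - N))) := by rw [h1, mul_one]
    _ = e • (c • 1 - N) := by rw [← mul_assoc, rho_inv, one_mul]

theorem Dat.conj (D : Dat ρ g c e δ N) (y : G) : ρ (y⁻¹ * g * y) = c • 1 + cj ρ N y := by
  rw [map_mul, map_mul, D.hg, cj]
  simp only [mul_smul_comm, smul_mul_assoc, mul_add, add_mul, mul_one, rho_inv]

theorem Dat.conj_inv (D : Dat ρ g c e δ N) (y : G) :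
    ρ (y⁻¹ * g⁻¹ * y) = e • (c • 1 - cj ρ N y) := by
  rw [map_mul, map_mul, D.inv, cj]
  simp only [mul_smul_comm, smul_mul_assoc, mul_sub, sub_mul, mul_one, rho_inv]

theorem Dat.cj_sq (D : Dat ρ g c e δ N) (y : G) : cj ρ N y * cj ρ N y = δ • 1 := by
  simp only [cj, mul_assoc]
  rw [← mul_assoc (ρ y), rho_inv', one_mul, ← mul_assoc N, D.h2]
  simp only [smul_mul_assoc, mul_smul_comm, one_mul, rho_inv]

theorem Dat.cj_tr (D : Dat ρ g c e δ N) (y : G) : trace (cj ρ N y) = 0 := by
  rw [trace_cj, D.ht]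

theorem Dat.comm (D : Dat ρ g c e δ N) : ρ g * N = N * ρ g := by
  rw [D.hg]
  simp [add_mul, mul_add]

theorem Dat.comm' (D : Dat ρ g c e δ N) : ρ g⁻¹ * N = N * ρ g⁻¹ := by
  rw [D.inv]
  simp [sub_mul, mul_sub]

theorem Dat.norm (D : Dat ρ g c e 0 N) : IsUnit c ∧ ρ g = c • (1 + (e * c) • N) ∧
    ((e * c) • N) * ((e * c) • N) = 0 ∧ trace ((e * c) • N) = 0 ∧ c * (e * c) = 1 := by
  have h : c * (e * c) = 1 := by linear_combination D.he
  refine ⟨IsUnit.of_mul_eq_one _ h, ?_, ?_, ?_, h⟩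
  · rw [D.hg, smul_add, smul_smul, h, one_smul]
  · rw [smul_mul_assoc, mul_smul_comm, D.h2]
    simp
  · rw [trace_smul, D.ht, smul_zero]

/-- A power of the ideal of traces of `N` against its conjugates is divisible by `δ`. -/
theorem Dat.span_pow [Algebra ℚ R] (D : Dat ρ g c e δ N) (k : ℕ)
    (hE : ∀ x : G, (fun y => y⁻¹ * g⁻¹ * y * g)^[k] x = 1) :
    Ideal.span (Set.range fun y => trace (cj ρ N y * N)) ^ 2 ^ k ≤ Ideal.span {δ} := by
  let π := Ideal.Quotient.mk (Ideal.span {δ})
  have h0 : π δ = 0 := Ideal.Quotient.eq_zero_iff_mem.2 (Ideal.mem_span_singleton_self δ)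
  have D' := D.map π
  rw [h0] at D'
  obtain ⟨n1, n2, n3, n4, n5⟩ := D'.norm
  have h1 := span_zero (mp π ρ) n1 n2 n3 n4 k hE
  rw [← Ideal.mk_ker (I := Ideal.span {δ}), ← Ideal.map_eq_bot_iff_le_ker, Ideal.map_pow,
    Ideal.map_span, eq_bot_iff, ← h1]
  refine Ideal.pow_right_mono (Ideal.span_le.2 ?_) _
  rintro _ ⟨_, ⟨y, rfl⟩, rfl⟩
  have h2 : π (trace (cj ρ N y * N)) = π c ^ 2 * trace (cj (mp π ρ)
      ((π e * π c) • π.mapMatrix N) y * ((π e * π c) • π.mapMatrix N)) := by
    simp only [cj, mp_apply, mul_smul_comm, smul_mul_assoc, trace_smul, smul_eq_mul]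
    rw [← map_mul π.mapMatrix, ← map_mul π.mapMatrix, ← map_mul π.mapMatrix, trace_map']
    linear_combination (-(π c * (π e * π c) + 1) * π (trace (ρ y⁻¹ * N * ρ y * N))) * n5
  change π _ ∈ _
  rw [h2]
  exact Ideal.mul_mem_left _ _ (Ideal.subset_span ⟨y, rfl⟩)

/-- Long products of conjugates of `N` are divisible by a given power of `δ`. -/
theorem Dat.prod_mem [Algebra ℚ R] (D : Dat ρ g c e δ N) (k : ℕ)
    (hE : ∀ x : G, (fun y => y⁻¹ * g⁻¹ * y * g)^[k] x = 1) (L : List G)
    (hL : 4 * (2 ^ k * k) ≤ L.length) : ∃ w : M2 R, (L.map (cj ρ N)).prod = δ ^ k • w := by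
  set Λ := Ideal.span (Set.range fun y => trace (cj ρ N y * N)) with hΛ
  have hp : ∀ y z, trace (cj ρ N y * cj ρ N z) ∈ Λ := fun y z => by
    rw [trace_cj_mul]
    exact Ideal.subset_span ⟨_, rfl⟩
  have ht' := D.cj_tr
  have hent : ∀ (j : ℕ) (L : List G), 4 * j ≤ L.length →
      ∀ p q, (L.map (cj ρ N)).prod p q ∈ Λ ^ j := by
    intro j
    induction j with
    | zero => intro L _ p q; simp
    | succ j ih =>
      intro L hL p q
      match L, hL with
      | y1 :: y2 :: y3 :: y4 :: L, hL =>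
        have e1 : ((y1 :: y2 :: y3 :: y4 :: L).map (cj ρ N)).prod
            = cj ρ N y1 * cj ρ N y2 * cj ρ N y3 * cj ρ N y4 * (L.map (cj ρ N)).prod := by
          simp only [List.map_cons, List.prod_cons, mul_assoc]
        rw [e1, Matrix.mul_apply, pow_succ']
        refine Ideal.sum_mem _ fun r _ => Ideal.mul_mem_mul ?_ (ih L ?_ r q)
        · exact four Λ _ _ _ _ (ht' _) (ht' _) (ht' _) (ht' _) (hp _ _) (hp _ _) (hp _ _) (hp _ _)
            (hp _ _) (hp _ _) p r
        · simp only [List.length_cons] at hL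
          omega
      | [], hL => simp at hL
      | [_], hL => simp at hL; omega
      | [_, _], hL => simp at hL; omega
      | [_, _, _], hL => simp at hL; omega
  have h1 : Λ ^ (2 ^ k * k) ≤ Ideal.span {δ ^ k} := by
    rw [pow_mul, ← Ideal.span_singleton_pow]
    exact Ideal.pow_right_mono (D.span_pow k hE) k
  choose w hw using fun p q => Ideal.mem_span_singleton'.1 (h1 (hent _ L hL p q))
  refine ⟨Matrix.of w, ?_⟩
  ext p q
  rw [← hw, Matrix.smul_apply, smul_eq_mul, mul_comm, Matrix.of_apply]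

end Pool.Agent.Lib.MP_b39e30_al.Gl
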