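import Pool.Agent.Lib.MP_b39e30_al.Gl.Main
import Pool.Agent.Lib.MP_b39e30_al.Lin.GComm
import Pool.Agent.Lib.MP_b39e30_al.Lin.Final

/-!
Uniform bounds and large characteristic, by a reduced product.
-/

set_option autoImplicit false

namespace Pool.Agent.Lib.MP_b39e30_al.Gl

open Filter Pool.Agent.Lib.MP_b39e30_al.Lin

/-- The case of a ring with torsion-free additive group. -/
theorem torsionFree (R : Type) [CommRing R] (hR : ∀ (m : ℕ) (r : R), m ≠ 0 → m • r = 0 → r = 0)
    (G : Subgroup (GL (Fin 2) R)) (g : G) {n : ℕ} (hn : Eng n g) :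
    Group.IsNilpotent (Subgroup.normalClosure ({g} : Set G)) := by
  let M := Algebra.algebraMapSubmonoid R (nonZeroDivisors ℤ)
  let _ : Algebra ℚ (Localization M) := localizationAlgebra (nonZeroDivisors ℤ) R
  have hi : Function.Injective (algebraMap R (Localization M)) := by
    rw [injective_iff_map_eq_zero]
    intro r hr
    obtain ⟨⟨_, z, hz, rfl⟩, h⟩ := (IsLocalization.map_eq_zero_iff M _ r).1 hr
    refine hR z.natAbs r (Int.natAbs_ne_zero.2 (nonZeroDivisors.ne_zero hz)) ?_
    rw [natAbs_nsmul_eq_zero, zsmul_eq_mul]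
    simpa using h
  refine (main (mp (algebraMap R (Localization M)) ((Units.coeHom _).comp G.subtype))
    (fun x y h => Subtype.ext (Units.ext ?_)) g n hn).1
  ext i j
  exact hi (congrFun (congrFun h i) j)

theorem lcs_le_ZN {Γ : Type*} [Group Γ] (g : Γ) (e : ℕ) :
    (Subgroup.normalClosure ({g} : Set Γ)).lowerCentralSeries e ≤ ZN g e := by
  induction e with
  | zero =>
    have := ZN_normal g 0
    refine Subgroup.normalClosure_le_normal ?_
    rw [Set.singleton_subset_iff]
    simpa [zw] using gcm_mem g (fun _ => 1) 0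
  | succ e ih =>
    have := ZN_normal g (e + 1)
    have h0 := ZN_normal g e
    refine (Subgroup.commutator_mono ih le_rfl).trans (Subgroup.commutator_le.2 fun w hw h hh => ?_)
    let C : Subgroup Γ := (Subgroup.centralizer
      ((ZN g e).map (QuotientGroup.mk' (ZN g (e + 1))) : Set (Γ ⧸ ZN g (e + 1)))).comap
        (QuotientGroup.mk' (ZN g (e + 1)))
    have h1 : ((ZN g e).map (QuotientGroup.mk' (ZN g (e + 1)))).Normal :=
      h0.map _ (QuotientGroup.mk'_surjective _)
    have h2 : Subgroup.normalClosure ({g} : Set Γ) ≤ C := by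
      refine Subgroup.normalClosure_le_normal ?_
      rw [Set.singleton_subset_iff]
      rintro _ ⟨v, hv, rfl⟩
      have h3 := (QuotientGroup.eq (s := ZN g (e + 1))).2 (gcm_cent g e hv)
      rw [QuotientGroup.mk_mul, QuotientGroup.mk_mul, QuotientGroup.mk_inv,
        eq_mul_inv_iff_mul_eq] at h3
      exact h3.symm
    rw [← QuotientGroup.eq_one_iff, ← QuotientGroup.mk'_apply, map_commutatorElement,
      commutatorElement_eq_one_iff_mul_comm]
    exact h2 hh _ ⟨w, hw, rfl⟩

theorem unif (n : ℕ) : ∃ N : ℕ, ∀ (R : Type) [CommRing R],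
    (∀ (m : ℕ) (r : R), m ≠ 0 → m ≤ N → m • r = 0 → r = 0) →
    ∀ (G : Subgroup (GL (Fin 2) R)) (g : G), Eng n g → ∀ f, zw g f N = 1 := by
  by_contra hcon
  simp only [not_exists, not_forall] at hcon
  choose R _ hR G g hg f hf using hcon
  let I : Ideal (∀ N, R N) :=
    { carrier := {r | ∀ᶠ N in atTop, r N = 0}
      add_mem' := fun ha hb => (ha.and hb).mono fun N h => by rw [Pi.add_apply, h.1, h.2, add_zero]
      zero_mem' := Eventually.of_forall fun _ => rfl
      smul_mem' := fun c _ h => Eventually.mono h fun N h => by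
        rw [smul_eq_mul, Pi.mul_apply, h, mul_zero] }
  let ρ : (∀ N, G N) →* M2 (∀ N, R N) :=
    { toFun := fun x => Matrix.of fun i j N => (x N).1.1 i j
      map_one' := by
        ext i j N
        by_cases h : i = j <;> simp [h, Matrix.one_apply]
      map_mul' := fun x y => by
        ext i j N
        simp [Matrix.mul_apply] }
  let φ := (mp (Ideal.Quotient.mk I) ρ).toHomUnits
  have h1 : Eng n g := fun x => funext fun N => by
    have h2 : Function.Semiconj (fun x : ∀ N, G N => x N) (fun y => y⁻¹ * g⁻¹ * y * g)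
      (fun y => y⁻¹ * (g N)⁻¹ * y * g N) := fun _ => rfl
    exact (h2.iterate_right n x).trans (hg N _)
  obtain ⟨e, he⟩ := zw_of_nilpotent (torsionFree ((∀ N, R N) ⧸ I) (fun m r hm h => by
    obtain ⟨r, rfl⟩ := Ideal.Quotient.mk_surjective r
    rw [← map_nsmul, Ideal.Quotient.eq_zero_iff_mem] at h
    exact Ideal.Quotient.eq_zero_iff_mem.2 (Eventually.mono
      (Eventually.and h (eventually_ge_atTop m)) fun N h => hR N m _ hm h.2 h.1))
    φ.range (φ.rangeRestrict g) (h1.map _ φ.rangeRestrict_surjective))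
  have h2 := (map_zw φ.rangeRestrict g (fun i N => f N i) e).trans (he _)
  have h3 : ∀ i j, ∀ᶠ N in atTop, (ρ (zw g (fun i N => f N i) e) - ρ 1) i j N = 0 := fun i j => by
    have h4 : φ (zw g (fun i N => f N i) e) = 1 := congrArg Subtype.val h2
    have h5 : mp (Ideal.Quotient.mk I) ρ (zw g (fun i N => f N i) e) =
        mp (Ideal.Quotient.mk I) ρ 1 := (congrArg Units.val h4).trans (map_one _).symm
    exact Ideal.Quotient.eq.1 (congrFun (congrFun h5 i) j)
  obtain ⟨N, h4, h5⟩ := ((eventually_all.2 fun i => eventually_all.2 (h3 i)).and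
    (eventually_ge_atTop e)).exists
  refine hf N (zw_mono (Eq.trans (map_zw (Pi.evalMonoidHom (fun N => G N) N) g
    (fun i N => f N i) e).symm ?_) h5)
  exact Subtype.ext (Units.ext (Matrix.ext fun i j => sub_eq_zero.1 (h4 i j)))

end Pool.Agent.Lib.MP_b39e30_al.Gl
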